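import Pool.Agent.Helper74.CL.Nec2

/-!
The necessary condition `m < 2 k` for admissible pairs.
-/

set_option autoImplicit false

namespace H74CL

/-- an action of the free group in which the letters of a periodic word move marked points -/
lemma exists_action (L : ℤ) (hL : 0 < L) (l : ℤ → Fin 2 × Bool) (hper : ∀ j, l (j + L) = l j)
    (hadj : ∀ j, (l j).1 = (l (j + 1)).1 → (l j).2 = (l (j + 1)).2) :
    ∃ φ : FreeGroup (Fin 2) →* CircleDeg1Liftˣ, ∀ j : ℤ,
      ((φ (FreeGroup.mk [l j]) : CircleDeg1Liftˣ) : CircleDeg1Lift) ((-j - 1) / L) = (-j) / L := by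
  have hU : ∀ v : Fin 2, ∃ U : CircleDeg1Liftˣ,
      (∀ i : ℤ, l (-i - 1) = (v, true) → (U : CircleDeg1Lift) (i / L) = (i + 1) / L) ∧
      (∀ i : ℤ, l (-i - 1) = (v, false) → (U : CircleDeg1Lift) ((i + 1) / L) = i / L) := by
    intro v
    obtain ⟨U, h1, h2⟩ := exists_unit L hL (fun i => l (-i - 1) = (v, true)) (by
      intro i
      have := hper (-(i + L) - 1)
      have e : -(i + L) - 1 + L = -i - 1 := by ring
      rw [e] at this
      rw [this])
    refine ⟨U, h1, ?_⟩
    intro i hi
    apply h2 i
    · intro h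
      have h3 := hadj (-(i + 1) - 1)
      have e : -(i + 1) - 1 + 1 = -i - 1 := by ring
      rw [e, hi, h] at h3
      simp at h3
    · intro h
      rw [hi] at h
      simp at h
    · intro h
      have h3 := hadj (-i - 1)
      have e : -i - 1 + 1 = -(i - 1) - 1 := by ring
      rw [e, hi, h] at h3
      simp at h3
  choose U hU1 hU2 using hU
  refine ⟨FreeGroup.lift U, ?_⟩
  intro j
  rcases hl : l j with ⟨v, b⟩
  cases b
  · have e : FreeGroup.mk [(v, false)] = (FreeGroup.of v)⁻¹ := by
      rw [FreeGroup.of, FreeGroup.inv_mk]; rfl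
    rw [e, map_inv, FreeGroup.lift_apply_of]
    have h := hU2 v (-j - 1) (by
      have e : -(-j - 1) - 1 = j := by ring
      rw [e, hl])
    push_cast at h
    have h3 : ((-(j : ℝ)) - 1) / L = (U v : CircleDeg1Lift) ((-(j : ℝ)) / L) := by
      rw [← h]; congr 1; ring
    rw [h3, CircleDeg1Lift.units_inv_apply_apply]
  · have e : FreeGroup.mk [(v, true)] = FreeGroup.of v := rfl
    rw [e, FreeGroup.lift_apply_of]
    have h := hU1 v (-j - 1) (by
      have e : -(-j - 1) - 1 = j := by ring
      rw [e, hl])
    push_cast at h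
    rw [h]; congr 1; ring

/-- a nontrivial element moves some point by one under some action -/
lemma exists_move (w : FreeGroup (Fin 2)) (hw : w ≠ 1) :
    ∃ (φ : FreeGroup (Fin 2) →* CircleDeg1Liftˣ) (p : ℝ),
      ((φ w : CircleDeg1Liftˣ) : CircleDeg1Lift) p = p + 1 := by
  classical
  set W := w.toWord with hW
  set d := FreeGroup.reduceCyclically W with hc
  set h := FreeGroup.reduceCyclically.conjugator W with hh
  have hcr : FreeGroup.IsCyclicallyReduced d :=
    FreeGroup.reduceCyclically.isCyclicallyReduced FreeGroup.isReduced_toWord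
  have hdec : h ++ d ++ FreeGroup.invRev h = W :=
    FreeGroup.reduceCyclically.conj_conjugator_reduceCyclically W
  have hwd : w = FreeGroup.mk h * FreeGroup.mk d * (FreeGroup.mk h)⁻¹ := by
    rw [FreeGroup.inv_mk, FreeGroup.mul_mk, FreeGroup.mul_mk, hdec, hW, FreeGroup.mk_toWord]
  have hc0 : d ≠ [] := by
    intro h0
    apply hw
    rw [hwd, h0, ← FreeGroup.one_eq_mk, mul_one, mul_inv_cancel]
  have hlen : 0 < d.length := List.length_pos_of_ne_nil hc0
  set L : ℤ := (d.length : ℤ) with hL
  have hL0 : 0 < L := by rw [hL]; exact_mod_cast hlen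
  have hlt : ∀ j : ℤ, (j % L).toNat < d.length := by
    intro j
    have h1 := Int.emod_nonneg j hL0.ne'
    have h2 := Int.emod_lt_of_pos j hL0
    omega
  set l : ℤ → Fin 2 × Bool := fun j => d.get ⟨(j % L).toNat, hlt j⟩ with hl
  have hper : ∀ j, l (j + L) = l j := by
    intro j
    simp only [hl]
    congr 2
    rw [Int.add_emod_right]
  have hadj : ∀ j, (l j).1 = (l (j + 1)).1 → (l j).2 = (l (j + 1)).2 := by
    intro j
    have h1 := Int.emod_nonneg j hL0.ne'
    have h2 := Int.emod_lt_of_pos j hL0
    by_cases hj : j % L + 1 < L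
    · have e : (j + 1) % L = j % L + 1 := by
        rw [Int.add_emod, Int.emod_eq_of_lt (a := 1) (by omega) (by omega)]
        exact Int.emod_eq_of_lt (by omega) hj
      have hch := hcr.1
      rw [FreeGroup.IsReduced, List.isChain_iff_getElem] at hch
      have h3 := hch (j % L).toNat (by omega)
      simp only [hl]
      have e2 : ((j + 1) % L).toNat = (j % L).toNat + 1 := by omega
      simp only [e2]
      exact h3
    · have e : (j + 1) % L = 0 := by
        have e3 : j % L = L - 1 := by omega
        rw [Int.add_emod, e3]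
        by_cases hL1 : L = 1
        · rw [hL1]; simp
        · rw [Int.emod_eq_of_lt (a := 1) (by omega) (by omega)]
          simp
      have h3 := hcr.2 (d.get ⟨d.length - 1, by omega⟩) (by
        rw [List.getLast?_eq_getElem?]
        exact List.getElem?_eq_getElem (by omega)) (d.get ⟨0, hlen⟩) (by
        rw [List.head?_eq_getElem?]
        exact List.getElem?_eq_getElem hlen)
      simp only [hl]
      have e1 : (j % L).toNat = d.length - 1 := by omega
      have e2 : ((j + 1) % L).toNat = 0 := by omega
      simp only [e1, e2]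
      exact h3
  obtain ⟨φ, hφ⟩ := exists_action L hL0 l hper hadj
  have hL' : (0 : ℝ) < L := by exact_mod_cast hL0
  have key : ∀ n : ℕ, n ≤ d.length →
      ((φ (FreeGroup.mk (d.drop (d.length - n))) : CircleDeg1Liftˣ) : CircleDeg1Lift)
        ((-(d.length : ℝ)) / L) = (-((d.length : ℝ) - n)) / L := by
    intro n
    induction n with
    | zero =>
      intro _
      rw [Nat.sub_zero, List.drop_length]
      have : φ (FreeGroup.mk []) = 1 := by rw [← FreeGroup.one_eq_mk, map_one]
      rw [this]
      simp
    | succ n ih =>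
      intro hn
      have ih' := ih (by omega)
      set j := d.length - (n + 1) with hj
      have e1 : d.length - n = j + 1 := by omega
      have hjl : j < d.length := by omega
      have e2 : d.drop j = [d[j]] ++ d.drop (j + 1) := by
        rw [List.singleton_append, ← List.drop_eq_getElem_cons]
      rw [e2, ← FreeGroup.mul_mk, map_mul, Units.val_mul, CircleDeg1Lift.mul_apply, ← e1, ih']
      have h4 := hφ j
      have e3 : l j = d[j] := by
        simp only [hl]
        have : ((j : ℤ) % L).toNat = j := by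
          rw [Int.emod_eq_of_lt (by omega) (by omega)]
          simp
        simp only [this]
        rfl
      rw [e3] at h4
      have e4 : ((d.length : ℝ) - n) = (j : ℝ) + 1 := by
        have : (d.length : ℝ) = ((j + 1 + n : ℕ) : ℝ) := by congr 1; omega
        rw [this]; push_cast; ring
      rw [e4]
      have e5 : -((j : ℝ) + 1) / (L : ℝ) = (-((j : ℤ) : ℝ) - 1) / L := by
        push_cast; ring
      rw [e5, h4]
      have e6 : ((d.length : ℝ) - ((n + 1 : ℕ) : ℝ)) = (j : ℝ) := by
        push_cast; linarith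
      rw [e6]
      push_cast
      ring
  have h5 := key d.length le_rfl
  rw [Nat.sub_self, List.drop_zero, sub_self, neg_zero, zero_div] at h5
  have h6 : (-(d.length : ℝ)) / L = -1 := by
    rw [hL]
    push_cast
    rw [neg_div, div_self]
    have : (0 : ℝ) < d.length := by exact_mod_cast hlen
    exact this.ne'
  rw [h6] at h5
  refine ⟨φ, ((φ (FreeGroup.mk h) : CircleDeg1Liftˣ) : CircleDeg1Lift) (-1), ?_⟩
  rw [hwd, map_mul, map_mul, map_inv, Units.val_mul, Units.val_mul, CircleDeg1Lift.mul_apply,
    CircleDeg1Lift.mul_apply, CircleDeg1Lift.units_inv_apply_apply, h5]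
  have h7 := CircleDeg1Lift.map_add_one ((φ (FreeGroup.mk h) : CircleDeg1Liftˣ) : CircleDeg1Lift) (-1)
  rw [← h7]
  norm_num

/-- powers: `w ^ m` is not a product of `g ≥ 1` commutators if `2 g ≤ m` -/
lemma lt_of_PC_pow {w : FreeGroup (Fin 2)} (hw : w ≠ 1) {m g : ℕ} (hg : 1 ≤ g)
    (h : PC g (w ^ m)) : m < 2 * g := by
  obtain ⟨φ, p, hp⟩ := exists_move w hw
  have h1 := h.map φ
  rw [map_pow] at h1
  apply PC.lt_of_move hg h1 (p := p)
  rw [Units.val_pow_eq_pow_val, CircleDeg1Lift.coe_pow]
  have := CircleDeg1Lift.iterate_eq_of_map_eq_add_int (f := (φ w : CircleDeg1Lift)) (x := p)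
    (m := 1) (by push_cast; exact hp) m
  rw [this]
  push_cast
  ring

theorem adm_nec {k m : ℕ} (hk : 1 ≤ k) (h : Adm k m) : m < 2 * k := by
  obtain ⟨w, hw, hcl⟩ := h
  have hw1 : w ≠ 1 := by
    rintro rfl
    rw [one_pow] at hcl
    have : cl (1 : FreeGroup (Fin 2)) = 0 := by
      apply Nat.eq_zero_of_le_zero
      exact Nat.sInf_le PC.zero
    omega
  have hne : {g | PC g (w ^ m)}.Nonempty := by
    by_contra hne
    rw [Set.not_nonempty_iff_eq_empty] at hne
    rw [cl, hne, Nat.sInf_empty] at hcl
    omega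
  have h1 := Nat.sInf_mem hne
  have h2 : PC k (w ^ m) := by
    rw [← hcl]; exact h1
  exact lt_of_PC_pow hw1 hk h2

end H74CL
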