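import Mathlib

/-!
An inequality of Ree type: a permutation `φ`, an involution `p`, a colouring `c` invariant under
`φ ∘ p`, a colouring `k` invariant under `φ`, and the joint classes `k'`.
-/

set_option autoImplicit false

namespace H74CL

open Finset

theorem ree {D K Q Q' : Type*} [Fintype D] [Fintype K] [Fintype Q] [Fintype Q']
    (A : Finset D) (φ p : Equiv.Perm D) (c : D → K) (k : D → Q) (k' : D → Q') (rep : Q' → D)
    (hc : Function.Surjective c) (hk : Function.Surjective k)
    (hinv : ∀ d, p (p d) = d) (hcol : ∀ d, c (φ (p d)) = c d) (hkφ : ∀ d, k (φ d) = k d)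
    (hA : ∀ d, d ∈ A ∨ p d ∈ A ∨ p d = d)
    (hk' : ∀ f : D → ℝ, (∀ d, f (φ d) = f d) → (∀ d, f (p d) = f d) → ∀ d, f d = f (rep (k' d))) :
    Fintype.card K + Fintype.card Q ≤ A.card + 2 * Fintype.card Q' := by
  classical
  -- the linear map
  let T : ((K → ℝ) × (Q → ℝ)) →ₗ[ℝ] ((A → ℝ) × ((Q' → ℝ) × (Q' → ℝ))) :=
    { toFun := fun x =>
        (fun a => (x.1 (c (p a)) - x.1 (c a)) + (x.2 (k (p a)) - x.2 (k a)),
          (fun q => x.1 (c (rep q)), fun q => x.2 (k (rep q))))
      map_add' := by
        intro x y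
        refine Prod.ext ?_ (Prod.ext ?_ ?_)
        · funext a
          simp only [Prod.fst_add, Prod.snd_add, Pi.add_apply]
          ring
        · funext a
          simp only [Prod.fst_add, Prod.snd_add, Pi.add_apply]
        · funext a
          simp only [Prod.fst_add, Prod.snd_add, Pi.add_apply]
      map_smul' := by
        intro r x
        refine Prod.ext ?_ (Prod.ext ?_ ?_)
        · funext a
          simp only [Prod.smul_fst, Prod.smul_snd, Pi.smul_apply, smul_eq_mul, RingHom.id_apply]
          ring
        · funext a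
          simp only [Prod.smul_fst, Prod.smul_snd, Pi.smul_apply, smul_eq_mul, RingHom.id_apply]
        · funext a
          simp only [Prod.smul_fst, Prod.smul_snd, Pi.smul_apply, smul_eq_mul, RingHom.id_apply] }
  have hT : Function.Injective T := by
    rw [← LinearMap.ker_eq_bot, LinearMap.ker_eq_bot']
    rintro ⟨F, H⟩ h0
    have h1 : ∀ a ∈ A, (F (c (p a)) - F (c a)) + (H (k (p a)) - H (k a)) = 0 := by
      intro a ha
      exact congrFun (congrArg Prod.fst h0) ⟨a, ha⟩
    have h2 : ∀ q, F (c (rep q)) = 0 := by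
      intro q
      exact congrFun (congrArg Prod.fst (congrArg Prod.snd h0)) q
    have h3 : ∀ q, H (k (rep q)) = 0 := by
      intro q
      exact congrFun (congrArg Prod.snd (congrArg Prod.snd h0)) q
    have h4 : ∀ d, (F (c (p d)) - F (c d)) + (H (k (p d)) - H (k d)) = 0 := by
      intro d
      rcases hA d with h | h | h
      · exact h1 d h
      · have := h1 _ h
        rw [hinv] at this
        linarith
      · rw [h]; ring
    -- the energy
    set f : D → ℝ := fun d => F (c d) with hf
    set e : D → ℝ := fun d => H (k d) with he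
    have f1 : ∀ d, f (p d) = f (φ d) := by
      intro d
      have := hcol (p d)
      rw [hinv] at this
      simp only [hf, this]
    have e1 : ∀ d, e (φ d) = e d := fun d => by simp only [he, hkφ]
    have s1 : ∑ d, (f (p d) - f d) * e d = 0 := by
      have : ∑ d, f (p d) * e d = ∑ d, f d * e d := by
        calc ∑ d, f (p d) * e d = ∑ d, f (φ d) * e (φ d) :=
              Finset.sum_congr rfl (fun d _ => by rw [f1, e1])
          _ = ∑ d, f d * e d := Equiv.sum_comp φ (fun d => f d * e d)
      calc ∑ d, (f (p d) - f d) * e d = ∑ d, f (p d) * e d - ∑ d, f d * e d := by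
            rw [← Finset.sum_sub_distrib]
            exact Finset.sum_congr rfl (fun d _ => by ring)
        _ = 0 := by rw [this, sub_self]
    have s2 : ∑ d, (f (p d) - f d) * e (p d) = 0 := by
      have : ∑ d, (f (p d) - f d) * e (p d) = ∑ d, (f (p (p d)) - f (p d)) * e (p (p d)) :=
        (Equiv.sum_comp p (fun d => (f (p d) - f d) * e (p d))).symm
      rw [this]
      have h5 : ∑ d, (f (p (p d)) - f (p d)) * e (p (p d)) = - ∑ d, (f (p d) - f d) * e d := by
        rw [← Finset.sum_neg_distrib]
        refine Finset.sum_congr rfl (fun d _ => ?_)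
        rw [hinv]
        ring
      rw [h5, s1, neg_zero]
    have s3 : ∑ d, (f (p d) - f d) ^ 2 = 0 := by
      have : ∑ d, (f (p d) - f d) ^ 2 =
          ∑ d, (f (p d) - f d) * e d - ∑ d, (f (p d) - f d) * e (p d) := by
        rw [← Finset.sum_sub_distrib]
        refine Finset.sum_congr rfl (fun d _ => ?_)
        have h6 : f (p d) - f d = - (e (p d) - e d) := by
          have := h4 d
          simp only [hf, he]
          linarith
        calc (f (p d) - f d) ^ 2 = (f (p d) - f d) * (f (p d) - f d) := by ring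
          _ = (f (p d) - f d) * (-(e (p d) - e d)) := by rw [← h6]
          _ = _ := by ring
      rw [this, s1, s2, sub_zero]
    have s4 : ∀ d, f (p d) = f d := by
      intro d
      have := (Finset.sum_eq_zero_iff_of_nonneg (fun d _ => sq_nonneg (f (p d) - f d))).1 s3 d
        (Finset.mem_univ d)
      have := pow_eq_zero_iff (two_ne_zero) |>.1 this
      linarith
    have s5 : ∀ d, e (p d) = e d := by
      intro d
      have h7 := h4 d
      have h8 := s4 d
      simp only [hf, he] at h7 h8 ⊢
      linarith
    have f0 : ∀ d, f d = 0 := by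
      intro d
      rw [hk' f (fun d => by rw [← f1, s4]) s4 d]
      exact h2 _
    have e0 : ∀ d, e d = 0 := by
      intro d
      rw [hk' e e1 s5 d]
      exact h3 _
    refine Prod.ext ?_ ?_
    · funext q
      obtain ⟨d, rfl⟩ := hc q
      exact f0 d
    · funext q
      obtain ⟨d, rfl⟩ := hk q
      exact e0 d
  have := LinearMap.finrank_le_finrank_of_injective hT
  rw [Module.finrank_prod, Module.finrank_prod, Module.finrank_prod,
    Module.finrank_fintype_fun_eq_card, Module.finrank_fintype_fun_eq_card,
    Module.finrank_fintype_fun_eq_card, Module.finrank_fintype_fun_eq_card,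
    Fintype.card_coe] at this
  omega

/-- The colourings of `ree` can be taken to be the classes of `φ` and the joint classes; then the
joint classes which consist of one class of `φ` bound the number of colours. -/
theorem ree_iso {D K : Type} [Fintype D] [Fintype K]
    (A : Finset D) (φ p : Equiv.Perm D) (c : D → K) (hc : Function.Surjective c)
    (hinv : ∀ d, p (p d) = d) (hcol : ∀ d, c (φ (p d)) = c d)
    (hA : ∀ d, d ∈ A ∨ p d ∈ A ∨ p d = d) :
    ∃ (Q' : Type) (k' : D → Q') (I : Finset Q'), Fintype.card K ≤ A.card + I.card ∧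
      (∀ d, k' (φ d) = k' d) ∧ (∀ d, k' (p d) = k' d) ∧ (∀ q ∈ I, ∃ d, k' d = q) ∧
      ∀ q ∈ I, ∀ T : Set D, (∀ e, e ∈ T ↔ φ e ∈ T) → ∀ d d', k' d = q → k' d' = q →
        d ∈ T → d' ∈ T := by
  classical
  let r1 : Setoid D :=
    { r := fun d d' => ∀ S : Set D, (∀ e, e ∈ S ↔ φ e ∈ S) → (d ∈ S ↔ d' ∈ S)
      iseqv := ⟨fun d S _ => Iff.rfl, fun h S hS => (h S hS).symm,
        fun h h' S hS => (h S hS).trans (h' S hS)⟩ }
  let r2 : Setoid D :=
    { r := fun d d' => ∀ S : Set D, (∀ e, e ∈ S ↔ φ e ∈ S) → (∀ e, e ∈ S ↔ p e ∈ S) →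
        (d ∈ S ↔ d' ∈ S)
      iseqv := ⟨fun d S _ _ => Iff.rfl, fun h S hS hS' => (h S hS hS').symm,
        fun h h' S hS hS' => (h S hS hS').trans (h' S hS hS')⟩ }
  let k : D → Quotient r1 := Quotient.mk r1
  let k' : D → Quotient r2 := Quotient.mk r2
  have hk1 : ∀ d d', k d = k d' → ∀ S : Set D, (∀ e, e ∈ S ↔ φ e ∈ S) → (d ∈ S ↔ d' ∈ S) :=
    fun d d' h => Quotient.exact h
  have hk2 : ∀ d d', k' d = k' d' → ∀ S : Set D, (∀ e, e ∈ S ↔ φ e ∈ S) →
      (∀ e, e ∈ S ↔ p e ∈ S) → (d ∈ S ↔ d' ∈ S) := fun d d' h => Quotient.exact h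
  have hkφ : ∀ d, k (φ d) = k d := fun d => Quotient.sound (fun S hS => (hS d).symm)
  have hk'φ : ∀ d, k' (φ d) = k' d := fun d => Quotient.sound (fun S hS _ => (hS d).symm)
  have hk'p : ∀ d, k' (p d) = k' d := fun d => Quotient.sound (fun S _ hS => (hS d).symm)
  have hks : Function.Surjective k := Quotient.mk_surjective
  have hk's : Function.Surjective k' := Quotient.mk_surjective
  let ψ : Quotient r1 → Quotient r2 :=
    Quotient.lift k' (fun d d' h => Quotient.sound (fun S hS _ => h S hS))
  have hψ : ∀ d, ψ (k d) = k' d := fun d => rfl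
  have main := ree A φ p c k k' Quotient.out hc hks hinv hcol hkφ hA (by
    intro f h1 h2 d
    have h3 : k' d = k' (Quotient.out (k' d)) := (Quotient.out_eq (k' d)).symm
    have h4 := hk2 _ _ h3 {e | f e = f d} (fun e => by simp [h1]) (fun e => by simp [h2])
    exact (h4.1 rfl).symm)
  let I : Finset (Quotient r2) :=
    Finset.univ.filter (fun q' => (Finset.univ.filter (fun q => ψ q = q')).card = 1)
  refine ⟨Quotient r2, k', I, ?_, hk'φ, hk'p, ?_, ?_⟩
  · have h1 : Fintype.card (Quotient r1) =
        ∑ q' : Quotient r2, (Finset.univ.filter (fun q => ψ q = q')).card := by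
      rw [← Finset.card_univ]
      exact Finset.card_eq_sum_card_fiberwise (fun q _ => Finset.mem_coe.2 (Finset.mem_univ _))
    have h2 : 2 * Fintype.card (Quotient r2) ≤
        ∑ q' : Quotient r2, ((Finset.univ.filter (fun q => ψ q = q')).card +
          if (Finset.univ.filter (fun q => ψ q = q')).card = 1 then 1 else 0) := by
      rw [← Finset.card_univ, mul_comm, ← smul_eq_mul]
      refine Finset.card_nsmul_le_sum _ _ _ (fun q' _ => ?_)
      have h3 : 1 ≤ (Finset.univ.filter (fun q => ψ q = q')).card := by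
        obtain ⟨d, rfl⟩ := hk's q'
        exact Finset.card_pos.2 ⟨k d, by simp [hψ]⟩
      split_ifs with h4
      · omega
      · omega
    rw [Finset.sum_add_distrib, ← h1, ← Finset.card_filter] at h2
    change 2 * Fintype.card (Quotient r2) ≤ Fintype.card (Quotient r1) + I.card at h2
    omega
  · intro q _
    exact hk's q
  · intro q hq T hT d d' hd hd' hdT
    have h1 : (Finset.univ.filter (fun q' => ψ q' = q)).card = 1 := (Finset.mem_filter.1 hq).2
    obtain ⟨t, ht⟩ := Finset.card_eq_one.1 h1
    have h2 : ∀ e, k' e = q → k e = t := by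
      intro e he
      have : k e ∈ Finset.univ.filter (fun q' => ψ q' = q) := by simp [hψ, he]
      rw [ht] at this
      exact Finset.mem_singleton.1 this
    exact (hk1 d d' ((h2 d hd).trans (h2 d' hd').symm) T hT).1 hdT

end H74CL
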