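import Mathlib

/-!
Every `z < m` is within one of a sum of at most `log log m + 2` numbers `m / p`, `2 ≤ p`.
-/

set_option autoImplicit false

namespace H74CL

lemma greedy_step (m r : ℕ) (hr : r < m) :
    ∃ p, 2 ≤ p ∧ m / p ≤ r ∧ (r - m / p) * (m + r + 1) ≤ r * (r + 1) := by
  have hp0 : 1 ≤ m / (r + 1) := (Nat.one_le_div_iff (by omega)).2 hr
  set p := m / (r + 1) + 1 with hp
  have hp1 : m < p * (r + 1) := by
    rw [hp, mul_comm]
    exact Nat.lt_mul_div_succ m (by omega)
  have hp2 : p * (r + 1) ≤ m + r + 1 := by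
    rw [hp, add_mul, one_mul]
    have := Nat.div_mul_le_self m (r + 1)
    omega
  have hv : m / p ≤ r := by
    have : m / p < r + 1 := by
      rw [Nat.div_lt_iff_lt_mul (by omega)]
      rw [mul_comm]; exact hp1
    omega
  refine ⟨p, by omega, hv, ?_⟩
  set v := m / p with hvdef
  have h1 : m < p * (v + 1) := Nat.lt_mul_div_succ m (by omega)
  obtain ⟨u, hu⟩ := Nat.exists_eq_add_of_le hv
  have h2 : r - v = u := by omega
  rw [h2]
  have h3 : (m + 1) * (r + 1) ≤ (v + 1) * (m + r + 1) := by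
    calc (m + 1) * (r + 1) ≤ p * (v + 1) * (r + 1) := Nat.mul_le_mul_right _ h1
      _ = (v + 1) * (p * (r + 1)) := by ring
      _ ≤ (v + 1) * (m + r + 1) := Nat.mul_le_mul_left _ hp2
  have h4 : u = r + 1 - (v + 1) := by omega
  have h5 : u + (v + 1) = r + 1 := by omega
  have h6 : u * (m + r + 1) + (v + 1) * (m + r + 1) = (r + 1) * (m + r + 1) := by
    rw [← h5]; ring
  have h7 : (r + 1) * (m + r + 1) = (m + 1) * (r + 1) + r * (r + 1) := by ring
  omega

lemma step_inv (m r r' X : ℕ) (hX : 2 ≤ X) (hr : 1 ≤ r) (h : r' * (m + r + 1) ≤ r * (r + 1))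
    (h2 : r * X ≤ m + X) : r' * X ^ 2 ≤ m + X ^ 2 := by
  have h3 : r' * X ^ 2 * (m + r + 1) ≤ (m + X ^ 2) * (m + r + 1) := by
    calc r' * X ^ 2 * (m + r + 1) = X ^ 2 * (r' * (m + r + 1)) := by ring
      _ ≤ X ^ 2 * (r * (r + 1)) := Nat.mul_le_mul_left _ h
      _ = (r * X) * (r * X + X) := by ring
      _ ≤ (m + X) * (m + X + X) := Nat.mul_le_mul h2 (by omega)
      _ ≤ (m + X ^ 2) * (m + r + 1) := by
        obtain ⟨Y, rfl⟩ := Nat.exists_eq_add_of_le hX
        obtain ⟨q, rfl⟩ := Nat.exists_eq_add_of_le hr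
        nlinarith [Nat.zero_le (m * Y), Nat.zero_le (m * Y ^ 2), Nat.zero_le (m * q),
          Nat.zero_le (q * (2 + Y) ^ 2)]
  exact Nat.le_of_mul_le_mul_right h3 (by omega)

lemma greedy (m z : ℕ) (hz : z < m) (j : ℕ) :
    ∃ ps : List ℕ, (∀ p ∈ ps, 2 ≤ p) ∧ ps.length ≤ j + 1 ∧ (ps.map (fun p => m / p)).sum ≤ z ∧
      (z - (ps.map (fun p => m / p)).sum) * 2 ^ 2 ^ j ≤ m + 2 ^ 2 ^ j := by
  induction j with
  | zero =>
    obtain ⟨p, hp, hv, h⟩ := greedy_step m z hz
    refine ⟨[p], by simpa using hp, by simp, by simpa using hv, ?_⟩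
    simp only [List.map_cons, List.map_nil, List.sum_cons, List.sum_nil, add_zero, pow_zero,
      pow_one]
    set u := z - m / p
    by_contra hcon
    push Not at hcon
    have h1 : m + 3 ≤ 2 * u := by omega
    have h2 : (m + 3) * (m + z + 1) ≤ 2 * (z * (z + 1)) := by
      calc (m + 3) * (m + z + 1) ≤ 2 * u * (m + z + 1) := Nat.mul_le_mul_right _ h1
        _ = 2 * (u * (m + z + 1)) := by ring
        _ ≤ 2 * (z * (z + 1)) := Nat.mul_le_mul_left _ h
    nlinarith
  | succ j ih =>
    obtain ⟨ps, h1, h2, h3, h4⟩ := ih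
    set s := (ps.map (fun p => m / p)).sum with hs
    rcases Nat.eq_zero_or_pos (z - s) with h0 | h0
    · refine ⟨ps, h1, by omega, h3, ?_⟩
      rw [← hs, h0]; simp
    · obtain ⟨p, hp, hv, h⟩ := greedy_step m (z - s) (by omega)
      refine ⟨p :: ps, ?_, by simpa using h2, ?_, ?_⟩
      · intro q hq
        rcases List.mem_cons.1 hq with h | h
        · rw [h]; exact hp
        · exact h1 q h
      · rw [List.map_cons, List.sum_cons, ← hs]; omega
      · rw [List.map_cons, List.sum_cons, ← hs]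
        have h5 := step_inv m (z - s) (z - s - m / p) (2 ^ 2 ^ j)
          (by
            calc 2 = 2 ^ 2 ^ 0 := by norm_num
              _ ≤ 2 ^ 2 ^ j := Nat.pow_le_pow_right (by norm_num)
                (Nat.pow_le_pow_right (by norm_num) (Nat.zero_le j))) h0 h h4
        have h6 : z - (m / p + s) = z - s - m / p := by omega
        have h7 : (2 : ℕ) ^ 2 ^ (j + 1) = (2 ^ 2 ^ j) ^ 2 := by rw [← pow_mul, ← pow_succ]
        rw [h6, h7]
        exact h5

theorem greedy_log (m z : ℕ) (hz : z < m) :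
    ∃ ps : List ℕ, (∀ p ∈ ps, 2 ≤ p) ∧ ps.length ≤ Nat.log 2 (Nat.log 2 m) + 2 ∧
      (ps.map (fun p => m / p)).sum ≤ z ∧ z ≤ (ps.map (fun p => m / p)).sum + 1 := by
  obtain ⟨ps, h1, h2, h3, h4⟩ := greedy m z hz (Nat.log 2 (Nat.log 2 m))
  set L := Nat.log 2 (Nat.log 2 m) with hL
  set X := 2 ^ 2 ^ L with hX
  have hm : m < X ^ 2 := by
    have e1 : Nat.log 2 m < 2 ^ (L + 1) := Nat.lt_pow_succ_log_self (by norm_num) _
    have e2 : m < 2 ^ (Nat.log 2 m + 1) := Nat.lt_pow_succ_log_self (by norm_num) _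
    calc m < 2 ^ (Nat.log 2 m + 1) := e2
      _ ≤ 2 ^ 2 ^ (L + 1) := Nat.pow_le_pow_right (by norm_num) e1
      _ = X ^ 2 := by rw [hX, ← pow_mul, ← pow_succ]
  set s := (ps.map (fun p => m / p)).sum with hs
  rcases Nat.eq_zero_or_pos (z - s) with h0 | h0
  · exact ⟨ps, h1, by omega, by omega, by omega⟩
  · obtain ⟨p, hp, hv, h⟩ := greedy_step m (z - s) (by omega)
    refine ⟨p :: ps, ?_, by simpa using h2, ?_, ?_⟩
    · intro q hq
      rcases List.mem_cons.1 hq with h | h
      · rw [h]; exact hp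
      · exact h1 q h
    · rw [List.map_cons, List.sum_cons, ← hs]; omega
    · rw [List.map_cons, List.sum_cons, ← hs]
      set r := z - s with hr
      set v := m / p with hvd
      have hX1 : 1 ≤ X := Nat.one_le_two_pow
      have h5 : r ≤ X := by
        by_contra hcon
        push Not at hcon
        have : (X + 1) * X ≤ r * X := Nat.mul_le_mul_right _ hcon
        nlinarith
      obtain ⟨q, hq⟩ := Nat.exists_eq_add_of_le h0
      have h6 : q * X ≤ m := by
        rw [hq] at h4
        nlinarith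
      have h7 : r * q ≤ m := by
        calc r * q ≤ X * q := Nat.mul_le_mul_right _ h5
          _ ≤ m := by rw [mul_comm]; exact h6
      have h8 : r - v ≤ 1 := by
        by_contra hcon
        push Not at hcon
        have h9 : 2 * (m + r + 1) ≤ (r - v) * (m + r + 1) := Nat.mul_le_mul_right _ hcon
        have h10 : r * (r + 1) = r * q + 2 * r := by
          have : r + 1 = q + 2 := by omega
          rw [this]; ring
        omega
      omega

end H74CL
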