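import Pool.Agent.Helper74.CL.AdmFam
import Pool.Agent.Helper74.CL.Num

/-!
All `k ≥ m (log log m + 2)` are admissible.
-/

set_option autoImplicit false

namespace H74CL

theorem adm_loglog (k m : ℕ) (hm : 1 ≤ m) (hk : m * (Nat.log 2 (Nat.log 2 m) + 2) ≤ k) :
    Adm k m := by
  set L := Nat.log 2 (Nat.log 2 m) with hL
  have hk2 : 2 * m ≤ k := by
    calc 2 * m = m * 2 := mul_comm _ _
      _ ≤ m * (L + 2) := Nat.mul_le_mul_left _ (by omega)
      _ ≤ k := hk
  -- the number of syllables
  set n := (2 * k - 2 + (m - 1)) / m with hn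
  have hn1 : n * m ≤ 2 * k - 2 + (m - 1) := Nat.div_mul_le_self _ _
  have hn2 : 2 * k - 2 + (m - 1) < m * (n + 1) := Nat.lt_mul_div_succ _ (by omega)
  have hn3 : 2 * k - 2 ≤ n * m := by
    have : m * (n + 1) = n * m + m := by ring
    omega
  set z := n * m - (2 * k - 2) with hz
  have hzm : z < m := by omega
  obtain ⟨ps, h1, h2, h3, h4⟩ : ∃ ps : List ℕ, (∀ p ∈ ps, 2 ≤ p) ∧ 2 * ps.length ≤ n ∧
      (ps.map (fun p => m / p)).sum ≤ z ∧ z ≤ (ps.map (fun p => m / p)).sum + 1 := by
    by_cases hm2 : m ≤ 2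
    · exact ⟨[], by simp, by simp, by simp, by simp; omega⟩
    · obtain ⟨ps, h1, h2, h3, h4⟩ := greedy_log m z hzm
      refine ⟨ps, h1, ?_, h3, h4⟩
      have h5 : 2 * (L + 2) ≤ n := by
        by_contra hcon
        push Not at hcon
        have h6 : n * m ≤ (2 * (L + 2) - 1) * m := Nat.mul_le_mul_right _ (by omega)
        have h7 : (2 * (L + 2) - 1) * m + m = 2 * (m * (L + 2)) := by
          have : 2 * (L + 2) = (2 * (L + 2) - 1) + 1 := by omega
          calc (2 * (L + 2) - 1) * m + m = ((2 * (L + 2) - 1) + 1) * m := by ring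
            _ = 2 * (L + 2) * m := by rw [← this]
            _ = 2 * (m * (L + 2)) := by ring
        omega
      omega
  have hn0 : 1 ≤ n := by
    rcases Nat.eq_zero_or_pos n with h | h
    · rw [h] at hn3; omega
    · exact h
  have := adm_family m hm ps h1 (n - 2 * ps.length) (by omega)
  have e1 : 2 * ps.length + (n - 2 * ps.length) = n := by omega
  rw [e1] at this
  have e2 : (n * m - (ps.map (fun p => m / p)).sum) / 2 + 1 = k := by omega
  rwa [e2] at this

end H74CL
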