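import Pool.Agent.Helper74.CL.Fam

/-!
Admissible pairs from the one sided words.
-/

set_option autoImplicit false

namespace H74CL

lemma wd_flatten (m : ℕ) (E : List (ℤ × ℤ)) : wd (List.replicate m E).flatten = wd E ^ m := by
  induction m with
  | zero => rfl
  | succ m ih => rw [List.replicate_succ, List.flatten_cons, wd_append, ih, pow_succ']

lemma coe_flatten {α β : Type*} (f : α → β) (m : ℕ) (E : List α) :
    (↑((List.replicate m E).flatten.map f) : Multiset β) = m • (↑(E.map f) : Multiset β) := by
  induction m with
  | zero => simp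
  | succ m ih =>
    rw [List.replicate_succ, List.flatten_cons, List.map_append, ← Multiset.coe_add, ih,
      succ_nsmul']

lemma sum_flatten (f : ℤ × ℤ → ℤ) (m : ℕ) (E : List (ℤ × ℤ)) :
    ((List.replicate m E).flatten.map f).sum = m * (E.map f).sum := by
  induction m with
  | zero => simp
  | succ m ih =>
    rw [List.replicate_succ, List.flatten_cons, List.map_append, List.sum_append, ih]
    push_cast
    ring

lemma length_flatten {α : Type*} (m : ℕ) (E : List α) :
    (List.replicate m E).flatten.length = m * E.length := by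
  induction m with
  | zero => simp
  | succ m ih =>
    rw [List.replicate_succ, List.flatten_cons, List.length_append, ih]
    ring

theorem adm_family (m : ℕ) (hm : 1 ≤ m) (ps : List ℕ) (hps : ∀ p ∈ ps, 2 ≤ p) (t : ℕ)
    (hn : 1 ≤ ps.length + t) :
    Adm (((2 * ps.length + t) * m - (ps.map (fun p => m / p)).sum) / 2 + 1) m := by
  classical
  set n := 2 * ps.length + t with hndef
  set B : ℤ := (m + 1 : ℤ) * (ps.sum + 1) + 1 with hB
  have hB0 : 0 < B := by positivity
  have hps' : ∀ p ∈ ps, 2 ≤ p ∧ (m + 1 : ℤ) * p < B := by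
    intro p hp
    refine ⟨hps p hp, ?_⟩
    have h1 : p ≤ ps.sum := List.le_sum_of_mem hp
    have h2 : (p : ℤ) ≤ (ps.sum : ℤ) := by exact_mod_cast h1
    have h3 : (0 : ℤ) < (m : ℤ) + 1 := by positivity
    rw [hB]
    nlinarith
  have hn1 : 1 ≤ n := by omega
  have hc : (0 : ℤ) < (n : ℤ) := by exact_mod_cast hn1
  set X : List ℤ := xe B t ps (n : ℤ) with hX
  have hXlen : X.length = n := xe_length _ _ _ _
  set σ : ℤ := X.sum with hσ
  have hσn : (n : ℤ) ≤ σ := xe_sum B hB0 t ps n hc hn
  set Y : List ℤ := List.replicate (n - 1) (-1) ++ [-(σ - (n - 1))] with hY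
  have hYlen : Y.length = n := by
    rw [hY, List.length_append, List.length_replicate, List.length_singleton]; omega
  have hYsum : Y.sum = -σ := by
    rw [hY, List.sum_append, List.sum_replicate, List.sum_singleton, nsmul_eq_mul,
      Nat.cast_sub hn1]
    push_cast
    ring
  have hYneg : ∀ v ∈ Y, v < 0 := by
    intro v hv
    rw [hY, List.mem_append] at hv
    rcases hv with h | h
    · rw [List.eq_of_mem_replicate h]; norm_num
    · rw [List.mem_singleton.1 h]; linarith
  set E : List (ℤ × ℤ) := X.zip Y with hE
  have hE1 : E.map Prod.fst = X := List.map_fst_zip (by rw [hXlen, hYlen])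
  have hE2 : E.map Prod.snd = Y := List.map_snd_zip (by rw [hXlen, hYlen])
  have hElen : E.length = n := by rw [← hXlen, ← hE1, List.length_map]
  have hne1 : ∀ s ∈ E, s.1 ≠ 0 := fun s hs =>
    xe_ne B hB0 t ps hps n hc _ (by rw [← hX, ← hE1]; exact List.mem_map_of_mem hs)
  have hne2 : ∀ s ∈ E, s.2 < 0 := fun s hs =>
    hYneg _ (by rw [← hE2]; exact List.mem_map_of_mem hs)
  set z := (ps.map (fun p => m / p)).sum with hz
  have hmem : ∀ s ∈ (List.replicate m E).flatten, s ∈ E := by
    intro s hs
    obtain ⟨l, hl, hs⟩ := List.mem_flatten.1 hs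
    rwa [List.eq_of_mem_replicate hl] at hs
  obtain ⟨Bs, S, hBs1, hBs2, hBs3⟩ := xe_blocks m B t ps hps (n : ℤ)
  have hzle : z ≤ n * m := by
    have h1 : ∀ ps : List ℕ, (ps.map (fun p => m / p)).sum ≤ ps.length * m := by
      intro ps
      induction ps with
      | nil => simp
      | cons p ps ih =>
        rw [List.map_cons, List.sum_cons, List.length_cons]
        have := Nat.div_le_self m p
        nlinarith
    calc z ≤ ps.length * m := h1 ps
      _ ≤ n * m := Nat.mul_le_mul_right _ (by omega)
  have hlen : (List.replicate m E).flatten.length = n * m := by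
    rw [length_flatten, hElen, mul_comm]
  refine ⟨wd E, ?_, ?_⟩
  · have := up E [] (↑(E.map Prod.fst)) (by simp) (by simp) (by
      rw [hE1, hE2, hYsum]; ring) (by simp)
    exact this.mem_commutator
  · rw [← wd_flatten]
    apply cl_eq
    · have := up (List.replicate m E).flatten Bs S (by rw [coe_flatten, hE1]; exact hBs1) hBs2 (by
        rw [sum_flatten, sum_flatten, hE1, hE2, hYsum]; ring) (by
        rw [hBs3, hlen]; exact hzle)
      rwa [hlen, hBs3] at this
    · intro g hg
      have := lower (List.replicate m E).flatten (by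
        intro h
        rw [← List.length_eq_zero_iff, hlen] at h
        have := Nat.mul_le_mul hn1 hm
        omega) (fun s hs => hne1 s (hmem s hs)) (fun s hs => hne2 s (hmem s hs)) g z hg (by
        rw [coe_flatten, hE1]
        exact xe_bound m B t ps hps' (n : ℤ) hc hB0)
      rw [hlen] at this
      omega

end H74CL
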