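import Pool.Agent.Helper74.CL.Defs

/-!
Pairings of the letters of a cyclic word and colourings of its gaps.  The word of a product of `g`
commutators has a pairing with at least `length / 2 + 1 - 2 g` colours; this is preserved by free
reduction.
-/

set_option autoImplicit false

namespace H74CL

variable {α : Type*}

/-- the inverse letter -/
def il (p : α × Bool) : α × Bool := (p.1, !p.2)

lemma il_il (p : α × Bool) : il (il p) = p := by simp [il]

lemma il_ne (p : α × Bool) : il p ≠ p := by
  intro h
  have := congrArg Prod.snd h
  simp [il] at this

/-- `π` is a pairing of the letters of `L` with inverse letters, and `c` is a colouring of the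
gaps `0, …, L.length` of the cyclic word `L` such that the gap before a letter and the gap after
its partner have the same colour. -/
structure Glue (L : List (α × Bool)) (π c : ℕ → ℕ) : Prop where
  lt : ∀ i < L.length, π i < L.length
  inv : ∀ i < L.length, π (π i) = i
  lab : ∀ i < L.length, L[π i]? = (L[i]?).map il
  cyc : c 0 = c L.length
  col : ∀ i < L.length, c i = c (π i + 1)

/-- the colours used -/
def cols (L : List (α × Bool)) (c : ℕ → ℕ) : Finset ℕ := (Finset.range (L.length + 1)).image c

/-- `L` has a gluing of genus at most `g` -/
def Gen (L : List (α × Bool)) (g : ℕ) : Prop :=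
  ∃ π c : ℕ → ℕ, Glue L π c ∧ L.length + 2 ≤ 2 * (cols L c).card + 4 * g

lemma gen_nil : Gen ([] : List (α × Bool)) 0 := by
  refine ⟨id, fun _ => 0, ⟨?_, ?_, ?_, rfl, ?_⟩, ?_⟩ <;> simp [cols]

lemma look (U V W : List (α × Bool)) (i : ℕ) :
    (U ++ V ++ FreeGroup.invRev U ++ FreeGroup.invRev V ++ W)[i]? =
      if i < U.length then U[i]? else
      if i < U.length + V.length then V[i - U.length]? else
      if i < 2 * U.length + V.length then (U[2 * U.length + V.length - 1 - i]?).map il else
      if i < 2 * U.length + 2 * V.length then
        (V[2 * U.length + 2 * V.length - 1 - i]?).map il else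
      W[i - (2 * U.length + 2 * V.length)]? := by
  have key : ∀ (X : List (α × Bool)) (j : ℕ), j < X.length →
      (FreeGroup.invRev X)[j]? = (X[X.length - 1 - j]?).map il := by
    intro X j hj
    rw [FreeGroup.invRev, List.getElem?_reverse (by simpa using hj), List.getElem?_map,
      List.length_map]
    rfl
  have hl : ∀ X : List (α × Bool), (FreeGroup.invRev X).length = X.length := fun X => by
    simp [FreeGroup.invRev]
  split_ifs with h1 h2 h3 h4
  · rw [List.append_assoc, List.append_assoc, List.append_assoc,
      List.getElem?_append_left h1]
  · rw [List.append_assoc, List.append_assoc, List.append_assoc,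
      List.getElem?_append_right (by omega), List.getElem?_append_left (by omega)]
  · rw [List.append_assoc, List.append_assoc, List.append_assoc,
      List.getElem?_append_right (by omega), List.getElem?_append_right (by omega),
      List.getElem?_append_left (by rw [hl]; omega), key _ _ (by omega)]
    congr 2
    omega
  · rw [List.append_assoc, List.append_assoc, List.append_assoc,
      List.getElem?_append_right (by omega), List.getElem?_append_right (by omega),
      List.getElem?_append_right (by rw [hl]; omega),
      List.getElem?_append_left (by rw [hl, hl]; omega), key _ _ (by rw [hl]; omega)]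
    congr 2
    rw [hl]
    omega
  · rw [List.append_assoc, List.append_assoc, List.append_assoc,
      List.getElem?_append_right (by omega), List.getElem?_append_right (by omega),
      List.getElem?_append_right (by rw [hl]; omega),
      List.getElem?_append_right (by rw [hl, hl]; omega)]
    congr 1
    rw [hl, hl]
    omega

/-- adding a commutator -/
lemma gen_comm (U V W : List (α × Bool)) (g : ℕ) (h : Gen W g) :
    Gen (U ++ V ++ FreeGroup.invRev U ++ FreeGroup.invRev V ++ W) (g + 1) := by
  obtain ⟨π, c, hG, hc⟩ := h
  have hlen : (U ++ V ++ FreeGroup.invRev U ++ FreeGroup.invRev V ++ W).length =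
      2 * U.length + 2 * V.length + W.length := by
    simp [FreeGroup.invRev]; ring
  set s := U.length with hs
  set t := V.length with ht
  set n := W.length with hn
  let π' : ℕ → ℕ := fun i =>
    if i < s then 2 * s + t - 1 - i else
    if i < s + t then 3 * s + 2 * t - 1 - i else
    if i < 2 * s + t then 2 * s + t - 1 - i else
    if i < 2 * s + 2 * t then 3 * s + 2 * t - 1 - i else
    π (i - (2 * s + 2 * t)) + (2 * s + 2 * t)
  let c' : ℕ → ℕ := fun i =>
    if i < 2 * s + 2 * t then
      (if 0 < i ∧ i < s then 3 * i + 1 else
       if s < i ∧ i < s + t then 3 * (i - s) + 2 else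
       if s + t < i ∧ i < 2 * s + t then 3 * (2 * s + t - i) + 1 else
       if 2 * s + t < i then 3 * (2 * s + 2 * t - i) + 2 else 3 * c 0)
    else 3 * c (i - (2 * s + 2 * t))
  refine ⟨π', c', ⟨?_, ?_, ?_, ?_, ?_⟩, ?_⟩
  · intro i hi
    rw [hlen] at hi ⊢
    simp only [π']
    split_ifs with h1 h2 h3 h4
    · omega
    · omega
    · omega
    · omega
    · have := hG.lt (i - (2 * s + 2 * t)) (by omega)
      omega
  · intro i hi
    rw [hlen] at hi
    simp only [π']
    by_cases h5 : i < 2 * s + 2 * t
    · split_ifs <;> omega
    · have h1 := hG.lt (i - (2 * s + 2 * t)) (by omega)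
      have h2 := hG.inv (i - (2 * s + 2 * t)) (by omega)
      have e1 : (if i < s then 2 * s + t - 1 - i else
        if i < s + t then 3 * s + 2 * t - 1 - i else
        if i < 2 * s + t then 2 * s + t - 1 - i else
        if i < 2 * s + 2 * t then 3 * s + 2 * t - 1 - i else
        π (i - (2 * s + 2 * t)) + (2 * s + 2 * t)) =
          π (i - (2 * s + 2 * t)) + (2 * s + 2 * t) := by
        rw [if_neg (by omega), if_neg (by omega), if_neg (by omega), if_neg h5]
      rw [e1, if_neg (by omega), if_neg (by omega), if_neg (by omega), if_neg (by omega),
        Nat.add_sub_cancel, h2]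
      omega
  · intro i hi
    rw [hlen] at hi
    have hil : (il ∘ il : α × Bool → α × Bool) = id := by funext p; exact il_il p
    by_cases h5 : i < 2 * s + 2 * t
    · rcases Nat.lt_or_ge i s with h1 | h1
      · have e : π' i = 2 * s + t - 1 - i := by simp only [π']; rw [if_pos h1]
        rw [e, look, look, ← hs, ← ht, if_neg (by omega), if_neg (by omega),
          if_pos (by omega), if_pos h1]
        congr 2
        omega
      rcases Nat.lt_or_ge i (s + t) with h2 | h2
      · have e : π' i = 3 * s + 2 * t - 1 - i := by
          simp only [π']; rw [if_neg (by omega), if_pos h2]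
        rw [e, look, look, ← hs, ← ht, if_neg (by omega), if_neg (by omega),
          if_neg (by omega), if_pos (by omega), if_neg (by omega), if_pos h2]
        congr 2
        omega
      rcases Nat.lt_or_ge i (2 * s + t) with h3 | h3
      · have e : π' i = 2 * s + t - 1 - i := by
          simp only [π']; rw [if_neg (by omega), if_neg (by omega), if_pos h3]
        rw [e, look, look, ← hs, ← ht, if_pos (by omega), if_neg (by omega),
          if_neg (by omega), if_pos h3, Option.map_map, hil, Option.map_id]
        rfl
      · have e : π' i = 3 * s + 2 * t - 1 - i := by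
          simp only [π']; rw [if_neg (by omega), if_neg (by omega), if_neg (by omega), if_pos h5]
        rw [e, look, look, ← hs, ← ht, if_neg (by omega), if_pos (by omega), if_neg (by omega),
          if_neg (by omega), if_neg (by omega), if_pos h5, Option.map_map, hil, Option.map_id, id]
        congr 1
        omega
    · have h1 := hG.lab (i - (2 * s + 2 * t)) (by omega)
      have e : π' i = π (i - (2 * s + 2 * t)) + (2 * s + 2 * t) := by
        simp only [π']
        rw [if_neg (by omega), if_neg (by omega), if_neg (by omega), if_neg h5]
      rw [e, look, look, ← hs, ← ht, if_neg (by omega), if_neg (by omega), if_neg (by omega),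
        if_neg (by omega), Nat.add_sub_cancel, h1, if_neg (by omega), if_neg (by omega),
        if_neg (by omega), if_neg (by omega)]
  · rw [hlen]
    simp only [c']
    have h1 := hG.cyc
    rw [if_neg (show ¬ (2 * s + 2 * t + n < 2 * s + 2 * t) by omega), Nat.add_sub_cancel_left,
      hn, ← h1]
    split_ifs <;> first | rfl | omega | (congr 2; omega)
  · intro i hi
    rw [hlen] at hi
    simp only [c', π']
    by_cases h5 : i < 2 * s + 2 * t
    · have e0 : ∀ j, j = 2 * s + 2 * t → 3 * c (j - (2 * s + 2 * t)) = 3 * c 0 := by
        rintro j rfl; simp
      rcases Nat.lt_or_ge i s with h1 | h1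
      · rw [if_pos h5, if_pos h1]
        split_ifs <;> first | rfl | omega | (rw [e0 _ (by omega)])
      rcases Nat.lt_or_ge i (s + t) with h2 | h2
      · rw [if_pos h5, if_neg (show ¬ (i < s) by omega), if_pos h2]
        split_ifs <;> first | rfl | omega | (rw [e0 _ (by omega)])
      rcases Nat.lt_or_ge i (2 * s + t) with h3 | h3
      · rw [if_pos h5, if_neg (show ¬ (i < s) by omega), if_neg (show ¬ (i < s + t) by omega),
          if_pos h3]
        split_ifs <;> first | rfl | omega | (rw [e0 _ (by omega)])
      · rw [if_pos h5, if_neg (show ¬ (i < s) by omega), if_neg (show ¬ (i < s + t) by omega),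
          if_neg (show ¬ (i < 2 * s + t) by omega), if_pos h5]
        split_ifs <;> first | rfl | omega | (rw [e0 _ (by omega)])
    · have h1 := hG.col (i - (2 * s + 2 * t)) (by omega)
      rw [if_neg h5, if_neg (show ¬ (i < s) by omega), if_neg (show ¬ (i < s + t) by omega),
          if_neg (show ¬ (i < 2 * s + t) by omega), if_neg h5, if_neg (by omega), h1]
      congr 2
      omega
  · rw [hlen]
    have hsub : ((cols W c).image (fun x => 3 * x) ∪
        ((Finset.range (s - 1)).image (fun i => 3 * (i + 1) + 1) ∪
          (Finset.range (t - 1)).image (fun i => 3 * (i + 1) + 2))) ⊆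
        cols (U ++ V ++ FreeGroup.invRev U ++ FreeGroup.invRev V ++ W) c' := by
      intro x hx
      simp only [Finset.mem_union, Finset.mem_image, Finset.mem_range, cols, hlen] at hx ⊢
      rcases hx with ⟨y, ⟨i, hi, rfl⟩, rfl⟩ | ⟨i, hi, rfl⟩ | ⟨i, hi, rfl⟩
      · refine ⟨i + (2 * s + 2 * t), by omega, ?_⟩
        simp only [c']
        rw [if_neg (by omega), Nat.add_sub_cancel]
      · refine ⟨i + 1, by omega, ?_⟩
        simp only [c']
        rw [if_pos (by omega), if_pos (by omega)]
      · refine ⟨s + (i + 1), by omega, ?_⟩
        simp only [c']
        rw [if_pos (by omega), if_neg (by omega), if_pos (by omega)]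
        congr 2
        omega
    have hcard := Finset.card_le_card hsub
    rw [Finset.card_union_of_disjoint, Finset.card_union_of_disjoint,
      Finset.card_image_of_injective, Finset.card_image_of_injective,
      Finset.card_image_of_injective, Finset.card_range, Finset.card_range] at hcard
    · omega
    · intro a b hab; simp only at hab; omega
    · intro a b hab; simp only at hab; omega
    · intro a b hab; simp only at hab; omega
    · rw [Finset.disjoint_left]
      intro x hx hy
      simp only [Finset.mem_image, Finset.mem_range] at hx hy
      obtain ⟨i, _, rfl⟩ := hx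
      obtain ⟨j, _, hj⟩ := hy
      omega
    · rw [Finset.disjoint_left]
      intro x hx hy
      simp only [Finset.mem_image, Finset.mem_range, Finset.mem_union] at hx hy
      obtain ⟨i, _, rfl⟩ := hx
      rcases hy with ⟨j, _, hj⟩ | ⟨j, _, hj⟩ <;> omega

end H74CL
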