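import Mathlib

/-!
Commutator length in the free group of rank two: products of commutators.
-/

set_option autoImplicit false

namespace H74CL

/-- `z` is a product of `g` commutators. -/
def PC {G : Type*} [Group G] (g : ℕ) (z : G) : Prop :=
  ∃ l : List (G × G), l.length = g ∧ (l.map (fun p => p.1 * p.2 * p.1⁻¹ * p.2⁻¹)).prod = z

/-- The commutator length of `z`: the least number of commutators whose product is `z`
(and `0` if there is none). -/
noncomputable def cl {G : Type*} [Group G] (z : G) : ℕ := sInf {g | PC g z}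

/-- `(k, m)` is admissible: some `w` in the derived group of the free group of rank two has
`cl (w ^ m) = k`. -/
def Adm (k m : ℕ) : Prop :=
  ∃ w ∈ commutator (FreeGroup (Fin 2)), cl (w ^ m) = k

section
variable {G : Type*} [Group G]

lemma PC.zero : PC 0 (1 : G) := ⟨[], rfl, rfl⟩

lemma PC.zero_iff {z : G} : PC 0 z ↔ z = 1 := by
  constructor
  · rintro ⟨l, hl, rfl⟩
    rw [List.length_eq_zero_iff] at hl
    subst hl; rfl
  · rintro rfl; exact PC.zero

lemma PC.one (u v : G) : PC 1 (u * v * u⁻¹ * v⁻¹) := ⟨[(u, v)], rfl, by simp⟩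

lemma PC.mul {g h : ℕ} {y z : G} (hy : PC g y) (hz : PC h z) : PC (g + h) (y * z) := by
  obtain ⟨l, rfl, rfl⟩ := hy
  obtain ⟨l', rfl, rfl⟩ := hz
  exact ⟨l ++ l', by simp, by simp⟩

lemma PC.conj {g : ℕ} {z : G} (hz : PC g z) (c : G) : PC g (c * z * c⁻¹) := by
  obtain ⟨l, rfl, rfl⟩ := hz
  refine ⟨l.map (fun p => (c * p.1 * c⁻¹, c * p.2 * c⁻¹)), by simp, ?_⟩
  rw [List.map_map]
  induction l with
  | nil => simp
  | cons p l ih =>
    rw [List.map_cons, List.prod_cons, ih, List.map_cons, List.prod_cons]
    simp only [Function.comp_apply]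
    group

lemma PC.succ {g : ℕ} {z : G} (hz : PC g z) : PC (g + 1) z := by
  have := hz.mul (PC.one (1 : G) 1)
  simpa using this

lemma PC.mono {g h : ℕ} {z : G} (hz : PC g z) (hgh : g ≤ h) : PC h z := by
  induction h, hgh using Nat.le_induction with
  | base => exact hz
  | succ n _ ih => exact ih.succ

lemma PC.mem_commutator {g : ℕ} {z : G} (hz : PC g z) : z ∈ commutator G := by
  obtain ⟨l, -, rfl⟩ := hz
  induction l with
  | nil => simp
  | cons p l ih =>
    rw [List.map_cons, List.prod_cons]
    refine (commutator G).mul_mem ?_ ih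
    exact Subgroup.commutator_mem_commutator (Subgroup.mem_top p.1) (Subgroup.mem_top p.2)

/-- how to compute the commutator length -/
lemma cl_eq {k : ℕ} {z : G} (h1 : PC k z) (h2 : ∀ g, PC g z → k ≤ g) : cl z = k := by
  apply le_antisymm
  · exact Nat.sInf_le h1
  · exact le_csInf ⟨k, h1⟩ (fun g hg => h2 g hg)

end

end H74CL
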