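import Pool.Agent.Helper74.CL.Low

/-!
The family of one sided words.
-/

set_option autoImplicit false

namespace H74CL

lemma wd_nil : wd [] = 1 := rfl

lemma wd_cons (t : ℤ × ℤ) (E : List (ℤ × ℤ)) :
    wd (t :: E) = ga ^ t.1 * (gb * ga * gb⁻¹) ^ t.2 * wd E := by
  simp [wd]

lemma wd_append (E E' : List (ℤ × ℤ)) : wd (E ++ E') = wd E * wd E' := by
  simp [wd]

/-- the syllables one after the other -/
def syl (E : List (ℤ × ℤ)) : List (Bool × ℤ) := E.flatMap (fun t => [(false, t.1), (true, t.2)])

lemma syl_cons (t : ℤ × ℤ) (E : List (ℤ × ℤ)) :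
    syl (t :: E) = (false, t.1) :: (true, t.2) :: syl E := rfl

lemma pr_syl (E : List (ℤ × ℤ)) : pr ga gb (syl E) = wd E := by
  induction E with
  | nil => rfl
  | cons t E ih => rw [syl_cons, pr_cons, pr_cons, val_false, val_true, ih, wd_cons, ← mul_assoc]

lemma coe_syl (E : List (ℤ × ℤ)) : (↑(syl E) : Multiset (Bool × ℤ)) =
    (↑(E.map Prod.fst) : Multiset ℤ).map (fun k => (false, k)) +
      (↑(E.map Prod.snd) : Multiset ℤ).map (fun k => (true, k)) := by
  induction E with
  | nil => rfl
  | cons t E ih =>
    rw [syl_cons, ← Multiset.cons_coe, ← Multiset.cons_coe, ih, List.map_cons, List.map_cons,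
      ← Multiset.cons_coe, ← Multiset.cons_coe, Multiset.map_cons, Multiset.map_cons,
      Multiset.cons_add, Multiset.add_cons]

/-- the upper bound for the genus -/
theorem up (E : List (ℤ × ℤ)) (Bs : List (Multiset ℤ)) (S : Multiset ℤ)
    (hE : (↑(E.map Prod.fst) : Multiset ℤ) = Bs.sum + S)
    (hB : ∀ S ∈ Bs, S.sum = 0 ∧ ∃ r, S.card = 2 * r + 1)
    (h0 : (E.map Prod.fst).sum + (E.map Prod.snd).sum = 0) (hz : Bs.length ≤ E.length) :
    PC ((E.length - Bs.length) / 2 + 1) (wd E) := by
  have hBs0 : Bs.sum.sum = 0 := by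
    clear hE hz
    induction Bs with
    | nil => simp
    | cons B Bs ih =>
      rw [List.sum_cons, Multiset.sum_add, (hB B (by simp)).1,
        ih (fun S hS => hB S (by simp [hS])), add_zero]
  have hsum : S.sum + (↑(E.map Prod.snd) : Multiset ℤ).sum = 0 := by
    have h1 := congrArg Multiset.sum hE
    rw [Multiset.sum_add, hBs0, zero_add, Multiset.sum_coe] at h1
    rw [← h1, Multiset.sum_coe]
    exact h0
  have hcard : (Bs.sum + S).card = E.length := by
    rw [← hE, Multiset.coe_card, List.length_map]
  rcases Nat.even_or_odd' S.card with ⟨r, hr | hr⟩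
  · obtain ⟨g, hg, hP⟩ := upper ga gb ((false, 0) :: syl E) Bs (0 ::ₘ S)
      (↑(E.map Prod.snd)) (by
        rw [← Multiset.cons_coe, coe_syl, hE, Multiset.add_cons, Multiset.map_cons,
          Multiset.cons_add]) hB ⟨r, by rw [Multiset.card_cons, hr]⟩ (by
        rw [Multiset.sum_cons, zero_add]; exact hsum)
    rw [pr_cons, val_false, zpow_zero, one_mul, pr_syl] at hP
    rw [Multiset.add_cons, Multiset.card_cons, hcard] at hg
    have : (E.length - Bs.length) / 2 + 1 = g := by omega
    rw [this]; exact hP
  · obtain ⟨g, hg, hP⟩ := upper ga gb (syl E) Bs S (↑(E.map Prod.snd)) (by rw [coe_syl, hE]) hB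
      ⟨r, hr⟩ hsum
    rw [pr_syl] at hP
    rw [hcard] at hg
    have : (E.length - Bs.length) / 2 + 1 = g := by omega
    rw [this]; exact hP

/-! ### counting zero sum submultisets -/

lemma bound_pos (T : Multiset ℤ) (hT : ∀ v ∈ T, 0 < v) : Bound T 0 := by
  intro F hF hFT
  rw [Nat.le_zero, Multiset.card_eq_zero]
  by_contra h
  obtain ⟨M, hM⟩ := Multiset.exists_mem_of_ne_zero h
  obtain ⟨h1, h2⟩ := hF M hM
  obtain ⟨v, hv⟩ := Multiset.exists_mem_of_ne_zero h1
  have hMT : M ≤ T := (Multiset.le_sum_of_mem hM).trans hFT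
  have h3 : ∀ v ∈ M, 0 ≤ v := fun v hv => (hT v (Multiset.mem_of_le hMT hv)).le
  have h4 := Multiset.single_le_sum h3 v hv
  have h5 := hT v (Multiset.mem_of_le hMT hv)
  omega

lemma bound_sep (T0 T1 : Multiset ℤ) (z0 z1 : ℕ) (d : ℤ) (h1 : ∀ v ∈ T1, d ∣ v)
    (h0 : ∀ v ∈ T0, ¬ d ∣ v) (hs : ∀ M ≤ T0, |M.sum| < d) (hB0 : Bound T0 z0)
    (hB1 : Bound T1 z1) : Bound (T0 + T1) (z0 + z1) := by
  classical
  intro F hF hFT
  have e0 : (T0 + T1).filter (fun v => ¬ d ∣ v) = T0 := by
    rw [Multiset.filter_add, Multiset.filter_eq_self.2 h0, Multiset.filter_eq_nil.2, add_zero]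
    intro v hv h
    exact h (h1 v hv)
  have e1 : (T0 + T1).filter (fun v => d ∣ v) = T1 := by
    rw [Multiset.filter_add, Multiset.filter_eq_self.2 h1, Multiset.filter_eq_nil.2, zero_add]
    intro v hv h
    exact h0 v hv h
  have hsumf : ∀ (P : ℤ → Prop) [DecidablePred P] (F : Multiset (Multiset ℤ)),
      (F.map (fun M => M.filter P)).sum = F.sum.filter P := by
    intro P _ F
    induction F using Multiset.induction with
    | empty => simp
    | cons M F ih => rw [Multiset.map_cons, Multiset.sum_cons, ih, Multiset.sum_cons,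
        Multiset.filter_add]
  have key : ∀ M ∈ F, (M.filter (fun v => ¬ d ∣ v)).sum = 0 ∧ (M.filter (fun v => d ∣ v)).sum = 0 := by
    intro M hM
    have hMT : M ≤ T0 + T1 := (Multiset.le_sum_of_mem hM).trans hFT
    have h2 : M.filter (fun v => ¬ d ∣ v) ≤ T0 := by
      rw [← e0]; exact Multiset.filter_le_filter _ hMT
    have h3 : (M.filter (fun v => d ∣ v)).sum + (M.filter (fun v => ¬ d ∣ v)).sum = 0 := by
      rw [← Multiset.sum_add, Multiset.filter_add_not]
      exact (hF M hM).2
    have h4 : d ∣ (M.filter (fun v => d ∣ v)).sum :=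
      Multiset.dvd_sum (fun v hv => (Multiset.mem_filter.1 hv).2)
    have h5 : d ∣ (M.filter (fun v => ¬ d ∣ v)).sum := by
      have : (M.filter (fun v => ¬ d ∣ v)).sum = - (M.filter (fun v => d ∣ v)).sum := by linarith
      rw [this]
      exact (dvd_neg).2 h4
    have h6 : (M.filter (fun v => ¬ d ∣ v)).sum = 0 := Int.eq_zero_of_abs_lt_dvd h5 (hs _ h2)
    exact ⟨h6, by linarith⟩
  have g0 := hB0 ((F.filter (fun M => M.filter (fun v => ¬ d ∣ v) ≠ 0)).map
    (fun M => M.filter (fun v => ¬ d ∣ v))) (by
      intro N hN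
      obtain ⟨M, hM, rfl⟩ := Multiset.mem_map.1 hN
      obtain ⟨hM1, hM2⟩ := Multiset.mem_filter.1 hM
      exact ⟨hM2, (key M hM1).1⟩) (by
      rw [hsumf]
      refine le_trans (Multiset.filter_le_filter _ (?_ : _ ≤ F.sum)) ?_
      · conv_rhs => rw [← Multiset.filter_add_not
          (fun M => M.filter (fun v => ¬ d ∣ v) ≠ 0) F]
        rw [Multiset.sum_add]
        exact Multiset.le_add_right _ _
      · rw [← e0]; exact Multiset.filter_le_filter _ hFT)
  have g1 := hB1 ((F.filter (fun M => M.filter (fun v => d ∣ v) ≠ 0)).map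
    (fun M => M.filter (fun v => d ∣ v))) (by
      intro N hN
      obtain ⟨M, hM, rfl⟩ := Multiset.mem_map.1 hN
      obtain ⟨hM1, hM2⟩ := Multiset.mem_filter.1 hM
      exact ⟨hM2, (key M hM1).2⟩) (by
      rw [hsumf]
      refine le_trans (Multiset.filter_le_filter _ (?_ : _ ≤ F.sum)) ?_
      · conv_rhs => rw [← Multiset.filter_add_not
          (fun M => M.filter (fun v => d ∣ v) ≠ 0) F]
        rw [Multiset.sum_add]
        exact Multiset.le_add_right _ _
      · rw [← e1]; exact Multiset.filter_le_filter _ hFT)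
  rw [Multiset.card_map] at g0 g1
  have g2 : F.card = (F.filter (fun M => M.filter (fun v => ¬ d ∣ v) ≠ 0)).card +
      (F.filter (fun M => ¬ (M.filter (fun v => ¬ d ∣ v) ≠ 0))).card := by
    rw [← Multiset.card_add, Multiset.filter_add_not]
  have g3 : (F.filter (fun M => ¬ (M.filter (fun v => ¬ d ∣ v) ≠ 0))).card ≤
      (F.filter (fun M => M.filter (fun v => d ∣ v) ≠ 0)).card := by
    have h7 : F.filter (fun M => ¬ (M.filter (fun v => ¬ d ∣ v) ≠ 0)) =
        F.filter (fun M => ¬ (M.filter (fun v => ¬ d ∣ v) ≠ 0) ∧ M.filter (fun v => d ∣ v) ≠ 0) := by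
      refine Multiset.filter_congr (fun M hM => ⟨fun h => ⟨h, fun h' => ?_⟩, fun h => h.1⟩)
      push Not at h
      apply (hF M hM).1
      rw [← Multiset.filter_add_not (fun v => d ∣ v) M, h', h, add_zero]
    rw [h7]
    exact Multiset.card_le_card (Multiset.monotone_filter_right F (fun M h => h.2))
  omega

lemma bound_pair (m p : ℕ) (hp : 2 ≤ p) (c : ℤ) (hc : 0 < c) :
    Bound (Multiset.replicate m (c * p) + Multiset.replicate m (-(c * (p - 1)))) (m / p) := by
  classical
  intro F hF hFT
  have hp' : (2 : ℤ) ≤ p := by exact_mod_cast hp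
  have hne : c * p ≠ -(c * (p - 1)) := by
    intro h
    nlinarith
  have key : ∀ M ∈ F, p ≤ M.count (-(c * (p - 1))) := by
    intro M hM
    have hMT : M ≤ Multiset.replicate m (c * p) + Multiset.replicate m (-(c * (p - 1))) :=
      (Multiset.le_sum_of_mem hM).trans hFT
    have h1 : M = Multiset.replicate (M.count (c * p)) (c * p) +
        Multiset.replicate (M.count (-(c * (p - 1)))) (-(c * (p - 1))) := by
      ext v
      rw [Multiset.count_add, Multiset.count_replicate, Multiset.count_replicate]
      by_cases h2 : v = c * p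
      · subst h2
        rw [if_pos rfl, if_neg (Ne.symm hne), add_zero]
      · by_cases h3 : v = -(c * (p - 1))
        · subst h3
          rw [if_neg hne, if_pos rfl, zero_add]
        · rw [if_neg (Ne.symm h2), if_neg (Ne.symm h3), add_zero, Multiset.count_eq_zero]
          intro hv
          rcases Multiset.mem_add.1 (Multiset.mem_of_le hMT hv) with h | h
          · exact h2 (Multiset.eq_of_mem_replicate h)
          · exact h3 (Multiset.eq_of_mem_replicate h)
    obtain ⟨hM0, hMs⟩ := hF M hM
    set i := M.count (c * p) with hi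
    set j := M.count (-(c * (p - 1))) with hj
    rw [h1, Multiset.sum_add, Multiset.sum_replicate, Multiset.sum_replicate] at hMs
    simp only [nsmul_eq_mul] at hMs
    have h4 : (i : ℤ) * p = j * (p - 1) := by
      have : c * ((i : ℤ) * p - j * (p - 1)) = 0 := by linarith
      rcases mul_eq_zero.1 this with h | h
      · exact absurd h hc.ne'
      · linarith
    have h5 : (p : ℤ) ∣ (j : ℤ) := by
      have : (j : ℤ) = p * (j - i) := by linarith
      exact ⟨_, this⟩
    have h6 : p ∣ j := by exact_mod_cast h5
    rcases Nat.eq_zero_or_pos j with h7 | h7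
    · exfalso
      rw [h7] at h4
      have h8 : i = 0 := by
        have h9 : (i : ℤ) * p = 0 := by rw [h4]; simp
        rcases mul_eq_zero.1 h9 with h | h
        · exact_mod_cast h
        · exfalso; omega
      apply hM0
      rw [h1, h7, h8]; simp
    · exact Nat.le_of_dvd h7 h6
  have h10 : F.card * p ≤ F.sum.count (-(c * (p - 1))) := by
    clear hFT hF
    induction F using Multiset.induction with
    | empty => simp
    | cons M F ih =>
      rw [Multiset.card_cons, Multiset.sum_cons, Multiset.count_add]
      have := key M (by simp)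
      have := ih (fun N hN => key N (by simp [hN]))
      linarith
  have h11 : F.sum.count (-(c * (p - 1))) ≤ m := by
    refine (Multiset.count_le_of_le _ hFT).trans ?_
    rw [Multiset.count_add, Multiset.count_replicate, Multiset.count_replicate, if_neg hne,
      if_pos rfl, zero_add]
  exact (Nat.le_div_iff_mul_le (by omega)).2 (h10.trans h11)

/-! ### the exponents -/

/-- the exponents of `x` -/
def xe (B : ℤ) (t : ℕ) : List ℕ → ℤ → List ℤ
  | [], c => List.replicate t c
  | p :: ps, c => c * p :: -(c * (p - 1)) :: xe B t ps (c * B)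

lemma xe_length (B : ℤ) (t : ℕ) (ps : List ℕ) (c : ℤ) :
    (xe B t ps c).length = 2 * ps.length + t := by
  induction ps generalizing c with
  | nil => simp [xe]
  | cons p ps ih => simp only [xe, List.length_cons, ih]; ring

lemma xe_dvd (B : ℤ) (t : ℕ) (ps : List ℕ) (c : ℤ) : ∀ v ∈ xe B t ps c, c ∣ v := by
  induction ps generalizing c with
  | nil =>
    intro v hv
    rw [xe] at hv
    rw [List.eq_of_mem_replicate hv]
  | cons p ps ih =>
    intro v hv
    rw [xe, List.mem_cons, List.mem_cons] at hv
    rcases hv with h | h | h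
    · rw [h]; exact dvd_mul_right _ _
    · rw [h, dvd_neg]; exact dvd_mul_right _ _
    · exact (dvd_mul_right c B).trans (ih _ v h)

lemma xe_ne (B : ℤ) (hB : 0 < B) (t : ℕ) (ps : List ℕ) (hps : ∀ p ∈ ps, 2 ≤ p) (c : ℤ)
    (hc : 0 < c) : ∀ v ∈ xe B t ps c, v ≠ 0 := by
  induction ps generalizing c with
  | nil =>
    intro v hv
    rw [xe] at hv
    rw [List.eq_of_mem_replicate hv]
    exact hc.ne'
  | cons p ps ih =>
    intro v hv
    have hp : (2 : ℤ) ≤ p := by exact_mod_cast hps p (by simp)
    rw [xe, List.mem_cons, List.mem_cons] at hv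
    rcases hv with h | h | h
    · rw [h]; positivity
    · rw [h]
      have : 0 < c * ((p : ℤ) - 1) := mul_pos hc (by linarith)
      linarith
    · exact ih (fun q hq => hps q (by simp [hq])) _ (mul_pos hc hB) v h

lemma xe_sum (B : ℤ) (hB : 0 < B) (t : ℕ) (ps : List ℕ) (c : ℤ)
    (hc : 0 < c) (hn : 1 ≤ ps.length + t) : c ≤ (xe B t ps c).sum := by
  induction ps generalizing c with
  | nil =>
    rw [xe, List.sum_replicate, nsmul_eq_mul]
    have : (1 : ℤ) ≤ t := by
      have : 1 ≤ t := by simpa using hn
      exact_mod_cast this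
    nlinarith
  | cons p ps ih =>
    rw [xe, List.sum_cons, List.sum_cons]
    have h1 : 0 ≤ (xe B t ps (c * B)).sum := by
      by_cases h : 1 ≤ ps.length + t
      · have := ih (c * B) (mul_pos hc hB) h
        have := mul_pos hc hB
        linarith
      · have h2 : ps.length = 0 := by omega
        have h3 : t = 0 := by omega
        rw [List.length_eq_zero_iff.1 h2, h3, xe]
        simp
    linarith

lemma nsmul_cons (m : ℕ) (a : ℤ) (T : Multiset ℤ) :
    m • (a ::ₘ T) = Multiset.replicate m a + m • T := by
  rw [← Multiset.singleton_add, nsmul_add, Multiset.nsmul_singleton]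

lemma xe_bound (m : ℕ) (B : ℤ) (t : ℕ) (ps : List ℕ)
    (hps : ∀ p ∈ ps, 2 ≤ p ∧ (m + 1 : ℤ) * p < B) (c : ℤ) (hc : 0 < c) (hB : 0 < B) :
    Bound (m • (↑(xe B t ps c) : Multiset ℤ)) (ps.map (fun p => m / p)).sum := by
  induction ps generalizing c with
  | nil =>
    refine bound_pos _ (fun v hv => ?_)
    have := Multiset.mem_of_mem_nsmul hv
    rw [xe, Multiset.mem_coe] at this
    rw [List.eq_of_mem_replicate this]
    exact hc
  | cons p ps ih =>
    obtain ⟨hp, hpB⟩ := hps p (by simp)
    have hp' : (2 : ℤ) ≤ p := by exact_mod_cast hp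
    have hm0 : (0 : ℤ) ≤ m := Int.natCast_nonneg m
    rw [xe, ← Multiset.cons_coe, ← Multiset.cons_coe, nsmul_cons, nsmul_cons, ← add_assoc,
      List.map_cons, List.sum_cons]
    refine bound_sep _ _ _ _ (c * B) ?_ ?_ ?_ (bound_pair m p hp c hc)
      (ih (fun q hq => hps q (by simp [hq])) _ (mul_pos hc hB))
    · intro v hv
      exact xe_dvd _ _ _ _ _ (Multiset.mem_coe.1 (Multiset.mem_of_mem_nsmul hv))
    · intro v hv hd
      have hpB' : (p : ℤ) < B := by nlinarith
      rcases Multiset.mem_add.1 hv with h | h
      · rw [Multiset.eq_of_mem_replicate h] at hd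
        have := Int.le_of_dvd (by positivity) ((mul_dvd_mul_iff_left hc.ne').1 hd)
        linarith
      · rw [Multiset.eq_of_mem_replicate h, dvd_neg] at hd
        have := Int.le_of_dvd (by linarith) ((mul_dvd_mul_iff_left hc.ne').1 hd)
        linarith
    · intro M hM
      have h1 : ∀ v ∈ M, -(c * p) ≤ v ∧ v ≤ c * p := by
        intro v hv
        have hcp : 0 < c * (p : ℤ) := by positivity
        rcases Multiset.mem_add.1 (Multiset.mem_of_le hM hv) with h | h
        · rw [Multiset.eq_of_mem_replicate h]
          constructor <;> linarith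
        · rw [Multiset.eq_of_mem_replicate h]
          constructor <;> nlinarith
      -- positive part
      have h2 : M.sum ≤ m * (c * p) ∧ -(m * (c * p)) ≤ M.sum := by
        classical
        have hne : c * p ≠ -(c * (p - 1)) := by
          intro h
          nlinarith
        have e : M = Multiset.replicate (M.count (c * p)) (c * p) +
            Multiset.replicate (M.count (-(c * (p - 1)))) (-(c * (p - 1))) := by
          ext v
          rw [Multiset.count_add, Multiset.count_replicate, Multiset.count_replicate]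
          by_cases h2 : v = c * p
          · subst h2
            rw [if_pos rfl, if_neg (Ne.symm hne), add_zero]
          · by_cases h3 : v = -(c * (p - 1))
            · subst h3
              rw [if_neg hne, if_pos rfl, zero_add]
            · rw [if_neg (Ne.symm h2), if_neg (Ne.symm h3), add_zero, Multiset.count_eq_zero]
              intro hv
              rcases Multiset.mem_add.1 (Multiset.mem_of_le hM hv) with h | h
              · exact h2 (Multiset.eq_of_mem_replicate h)
              · exact h3 (Multiset.eq_of_mem_replicate h)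
        have hi : M.count (c * p) ≤ m := by
          refine (Multiset.count_le_of_le _ hM).trans ?_
          rw [Multiset.count_add, Multiset.count_replicate, Multiset.count_replicate,
            if_pos rfl, if_neg (Ne.symm hne), add_zero]
        have hj : M.count (-(c * (p - 1))) ≤ m := by
          refine (Multiset.count_le_of_le _ hM).trans ?_
          rw [Multiset.count_add, Multiset.count_replicate, Multiset.count_replicate,
            if_neg hne, if_pos rfl, zero_add]
        set i := M.count (c * p)
        set j := M.count (-(c * (p - 1)))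
        have hi' : (i : ℤ) ≤ m := by exact_mod_cast hi
        have hj' : (j : ℤ) ≤ m := by exact_mod_cast hj
        have hi0 : (0 : ℤ) ≤ i := Int.natCast_nonneg i
        have hj0 : (0 : ℤ) ≤ j := Int.natCast_nonneg j
        rw [e, Multiset.sum_add, Multiset.sum_replicate, Multiset.sum_replicate]
        simp only [nsmul_eq_mul]
        have hcp : 0 < c * (p : ℤ) := by positivity
        have hcp' : 0 < c * ((p : ℤ) - 1) := mul_pos hc (by linarith)
        constructor
        · nlinarith
        · nlinarith
      rw [abs_lt]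
      have h3 : (m : ℤ) * (c * p) < c * B := by
        have : (m : ℤ) * (c * p) = c * (m * p) := by ring
        rw [this]
        refine mul_lt_mul_of_pos_left ?_ hc
        nlinarith
      constructor <;> linarith

/-- the blocks -/
lemma xe_blocks (m : ℕ) (B : ℤ) (t : ℕ) (ps : List ℕ) (hps : ∀ p ∈ ps, 2 ≤ p) (c : ℤ) :
    ∃ (Bs : List (Multiset ℤ)) (S : Multiset ℤ),
      m • (↑(xe B t ps c) : Multiset ℤ) = Bs.sum + S ∧
      (∀ S ∈ Bs, S.sum = 0 ∧ ∃ r, S.card = 2 * r + 1) ∧
      Bs.length = (ps.map (fun p => m / p)).sum := by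
  induction ps generalizing c with
  | nil => exact ⟨[], m • (↑(xe B t [] c) : Multiset ℤ), by simp, by simp, rfl⟩
  | cons p ps ih =>
    obtain ⟨Bs, S, h1, h2, h3⟩ := ih (fun q hq => hps q (by simp [hq])) (c * B)
    have hp := hps p (by simp)
    have hdiv := Nat.div_mul_le_self m p
    obtain ⟨u, hu⟩ := Nat.exists_eq_add_of_le hdiv
    have hdiv' : m / p * (p - 1) ≤ m := le_trans (Nat.mul_le_mul_left _ (Nat.sub_le p 1)) hdiv
    obtain ⟨u', hu'⟩ := Nat.exists_eq_add_of_le hdiv'
    refine ⟨List.replicate (m / p) (Multiset.replicate (p - 1) (c * p) +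
      Multiset.replicate p (-(c * (p - 1)))) ++ Bs,
      (Multiset.replicate u' (c * p) + Multiset.replicate u (-(c * (p - 1)))) + S, ?_, ?_, ?_⟩
    · rw [xe, ← Multiset.cons_coe, ← Multiset.cons_coe, nsmul_cons, nsmul_cons, h1,
        List.sum_append, List.sum_replicate, nsmul_add, Multiset.nsmul_replicate,
        Multiset.nsmul_replicate]
      have e1 : Multiset.replicate m (c * (p : ℤ)) =
          Multiset.replicate (m / p * (p - 1)) (c * (p : ℤ)) + Multiset.replicate u' (c * (p : ℤ)) := by
        rw [← Multiset.replicate_add, ← hu']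
      have e2 : Multiset.replicate m (-(c * ((p : ℤ) - 1))) =
          Multiset.replicate (m / p * p) (-(c * ((p : ℤ) - 1))) +
            Multiset.replicate u (-(c * ((p : ℤ) - 1))) := by
        rw [← Multiset.replicate_add, ← hu]
      rw [e1, e2]
      abel
    · intro T hT
      rcases List.mem_append.1 hT with h | h
      · rw [List.eq_of_mem_replicate h]
        refine ⟨?_, p - 1, ?_⟩
        · rw [Multiset.sum_add, Multiset.sum_replicate, Multiset.sum_replicate, nsmul_eq_mul,
            nsmul_eq_mul, Nat.cast_sub (by omega)]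
          push_cast
          ring
        · rw [Multiset.card_add, Multiset.card_replicate, Multiset.card_replicate]
          omega
      · exact h2 T h
    · rw [List.length_append, List.length_replicate, h3, List.map_cons, List.sum_cons]

end H74CL
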