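import Pool.Agent.Helper74.CL.Defs

/-!
Upper bound: extracting blocks of powers of `x` from a product of powers of `x` and of
`y = b x b⁻¹`.
-/

set_option autoImplicit false

namespace H74CL

variable {G : Type*} [Group G]

/-- value of a letter: `(false, k)` is `x ^ k`, `(true, k)` is `(b x b⁻¹) ^ k` -/
def val (x b : G) (p : Bool × ℤ) : G := if p.1 then (b * x * b⁻¹) ^ p.2 else x ^ p.2

/-- product of a list of letters -/
def pr (x b : G) (l : List (Bool × ℤ)) : G := (l.map (val x b)).prod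

lemma pr_nil (x b : G) : pr x b [] = 1 := rfl

lemma pr_cons (x b : G) (p : Bool × ℤ) (l : List (Bool × ℤ)) :
    pr x b (p :: l) = val x b p * pr x b l := by simp [pr]

lemma pr_append (x b : G) (l l' : List (Bool × ℤ)) :
    pr x b (l ++ l') = pr x b l * pr x b l' := by simp [pr]

lemma val_false (x b : G) (k : ℤ) : val x b (false, k) = x ^ k := by simp [val]

lemma val_true (x b : G) (k : ℤ) : val x b (true, k) = (b * x * b⁻¹) ^ k := by simp [val]

/-- three letters which are powers of `x` can be merged at the cost of one commutator -/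
lemma merge3 (x b : G) (l : List (Bool × ℤ)) (u v w : ℤ) (R : Multiset (Bool × ℤ))
    (h : (l : Multiset (Bool × ℤ)) = (false, u) ::ₘ (false, v) ::ₘ (false, w) ::ₘ R) :
    ∃ l' : List (Bool × ℤ), (l' : Multiset (Bool × ℤ)) = (false, u + v + w) ::ₘ R ∧
      ∃ κ : G, PC 1 κ ∧ pr x b l = κ * pr x b l' := by
  have h1 : (↑[(false, u), (false, v), (false, w)] : Multiset (Bool × ℤ)) ≤ ↑l := by
    rw [h]
    refine Multiset.le_iff_exists_add.2 ⟨R, ?_⟩
    simp [← Multiset.cons_coe]
  rw [Multiset.coe_le] at h1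
  obtain ⟨l'', hp, hs⟩ := h1
  obtain ⟨u', v', w', hl''⟩ : ∃ u' v' w', l'' = [(false, u'), (false, v'), (false, w')] := by
    have hlen : l''.length = 3 := by simpa using hp.length_eq
    match l'', hlen, hp with
    | [p1, p2, p3], _, hp =>
      have hm : ∀ p ∈ [p1, p2, p3], p.1 = false := by
        intro p hpm
        have := hp.mem_iff.1 hpm
        simp only [List.mem_cons, List.not_mem_nil, or_false] at this
        rcases this with rfl | rfl | rfl <;> rfl
      refine ⟨p1.2, p2.2, p3.2, ?_⟩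
      have e1 := hm p1 (by simp)
      have e2 := hm p2 (by simp)
      have e3 := hm p3 (by simp)
      rw [← e1]
      conv_rhs => rw [show (p1.1, p2.2) = p2 from by rw [e1, ← e2],
        show (p1.1, p3.2) = p3 from by rw [e1, ← e3]]
  subst hl''
  have hsum : u' + v' + w' = u + v + w := by
    have := (hp.map Prod.snd).sum_eq
    simp only [List.map_cons, List.map_nil, List.sum_cons, List.sum_nil, add_zero] at this
    linarith
  rw [List.cons_sublist_iff] at hs
  obtain ⟨r1, r2, rfl, hm1, hs⟩ := hs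
  rw [List.cons_sublist_iff] at hs
  obtain ⟨r3, r4, rfl, hm2, hs⟩ := hs
  rw [List.singleton_sublist] at hs
  obtain ⟨A, B1, rfl⟩ := List.append_of_mem hm1
  obtain ⟨B2, C1, rfl⟩ := List.append_of_mem hm2
  obtain ⟨C2, D, rfl⟩ := List.append_of_mem hs
  have hR : R = ↑(A ++ B1 ++ B2 ++ C1 ++ C2 ++ D) := by
    have hq : (↑[(false, u'), (false, v'), (false, w')] : Multiset (Bool × ℤ)) =
        ↑[(false, u), (false, v), (false, w)] := Multiset.coe_eq_coe.2 hp
    have h2 : (↑[(false, u), (false, v), (false, w)] : Multiset (Bool × ℤ)) + R =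
        ↑[(false, u), (false, v), (false, w)] + ↑(A ++ B1 ++ B2 ++ C1 ++ C2 ++ D) := by
      have e1 : (↑[(false, u), (false, v), (false, w)] : Multiset (Bool × ℤ)) + R =
          (false, u) ::ₘ (false, v) ::ₘ (false, w) ::ₘ R := by
        simp [← Multiset.cons_coe]
      rw [e1, ← h, ← hq, Multiset.coe_add, Multiset.coe_eq_coe]
      simp only [List.append_assoc, List.cons_append, List.nil_append]
      refine (List.perm_middle).trans (List.Perm.cons _ ?_)
      have : A ++ (B1 ++ (B2 ++ (false, v') :: (C1 ++ (C2 ++ (false, w') :: D)))) =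
        (A ++ B1 ++ B2) ++ (false, v') :: (C1 ++ (C2 ++ (false, w') :: D)) := by simp
      rw [this]
      refine (List.perm_middle).trans (List.Perm.cons _ ?_)
      have : A ++ B1 ++ B2 ++ (C1 ++ (C2 ++ (false, w') :: D)) =
        (A ++ B1 ++ B2 ++ C1 ++ C2) ++ (false, w') :: D := by simp
      rw [this]
      refine (List.perm_middle).trans (List.Perm.cons _ ?_)
      simp
    exact add_left_cancel h2
  refine ⟨A ++ (C1 ++ C2) ++ [(false, u + v + w)] ++ (B1 ++ B2) ++ D, ?_, ?_⟩
  · rw [hR, Multiset.cons_coe, Multiset.coe_eq_coe]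
    simp only [List.append_assoc, List.cons_append, List.nil_append]
    have : A ++ (C1 ++ (C2 ++ (false, u + v + w) :: (B1 ++ (B2 ++ D)))) =
      (A ++ C1 ++ C2) ++ (false, u + v + w) :: (B1 ++ (B2 ++ D)) := by simp
    rw [this]
    refine (List.perm_middle).trans (List.Perm.cons _ ?_)
    rw [← Multiset.coe_eq_coe]
    simp only [← Multiset.coe_add]
    abel
  · set S : G := x ^ u' * pr x b (B1 ++ B2) with hS
    set V : G := x ^ v' with hV
    set T : G := pr x b (C1 ++ C2) * x ^ w' with hT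
    refine ⟨pr x b A * ((S * V) * (T * S⁻¹) * (S * V)⁻¹ * (T * S⁻¹)⁻¹) * (pr x b A)⁻¹,
      (PC.one _ _).conj _, ?_⟩
    have hz : x ^ (u + v + w) = x ^ w' * x ^ v' * x ^ u' := by
      rw [← zpow_add, ← zpow_add, ← hsum]; congr 1; ring
    simp only [pr_append, pr_cons, pr_nil, val_false, hz, mul_one, hS, hV, hT]
    group

/-- extraction of an odd block of powers of `x` -/
lemma extract (x b : G) (r : ℕ) : ∀ (l : List (Bool × ℤ)) (S : Multiset ℤ)
    (R : Multiset (Bool × ℤ)), (l : Multiset (Bool × ℤ)) = S.map (fun k => (false, k)) + R →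
    S.card = 2 * r + 1 →
    ∃ l' : List (Bool × ℤ), (l' : Multiset (Bool × ℤ)) = R ∧
      ∃ κ c : G, PC r κ ∧ pr x b l = κ * (c * x ^ S.sum * c⁻¹) * pr x b l' := by
  induction r with
  | zero =>
    intro l S R h hc
    obtain ⟨u, rfl⟩ := Multiset.card_eq_one.1 (by simpa using hc)
    rw [Multiset.map_singleton, Multiset.singleton_add] at h
    have hm : (false, u) ∈ l := by
      rw [← Multiset.mem_coe, h]; exact Multiset.mem_cons_self _ _
    obtain ⟨A, B, rfl⟩ := List.append_of_mem hm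
    refine ⟨A ++ B, ?_, 1, pr x b A, PC.zero, ?_⟩
    · have h3 : (false, u) ::ₘ (↑(A ++ B) : Multiset (Bool × ℤ)) = (false, u) ::ₘ R := by
        rw [← h, Multiset.cons_coe, Multiset.coe_eq_coe]
        exact List.perm_middle.symm
      exact (Multiset.cons_inj_right _).1 h3
    · simp only [pr_append, pr_cons, val_false, Multiset.sum_singleton]
      group
  | succ r ih =>
    intro l S R h hc
    obtain ⟨u, S1, rfl⟩ : ∃ u S1, S = u ::ₘ S1 := by
      have : 0 < S.card := by omega
      obtain ⟨u, hu⟩ := Multiset.card_pos_iff_exists_mem.1 this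
      exact ⟨u, S.erase u, (Multiset.cons_erase hu).symm⟩
    rw [Multiset.card_cons] at hc
    obtain ⟨v, S2, rfl⟩ : ∃ u S2, S1 = u ::ₘ S2 := by
      have : 0 < S1.card := by omega
      obtain ⟨u, hu⟩ := Multiset.card_pos_iff_exists_mem.1 this
      exact ⟨u, S1.erase u, (Multiset.cons_erase hu).symm⟩
    rw [Multiset.card_cons] at hc
    obtain ⟨w, S3, rfl⟩ : ∃ u S3, S2 = u ::ₘ S3 := by
      have : 0 < S2.card := by omega
      obtain ⟨u, hu⟩ := Multiset.card_pos_iff_exists_mem.1 this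
      exact ⟨u, S2.erase u, (Multiset.cons_erase hu).symm⟩
    rw [Multiset.card_cons] at hc
    obtain ⟨l1, hl1, κ1, hκ1, hp1⟩ := merge3 x b l u v w
      (S3.map (fun k => (false, k)) + R) (by rw [h]; simp)
    obtain ⟨l', hl', κ, c, hκ, hp⟩ := ih l1 ((u + v + w) ::ₘ S3) R
      (by rw [hl1]; simp) (by rw [Multiset.card_cons]; omega)
    refine ⟨l', hl', κ1 * κ, c, by rw [add_comm r 1]; exact hκ1.mul hκ, ?_⟩
    have e : ((u + v + w) ::ₘ S3).sum = (u ::ₘ v ::ₘ w ::ₘ S3).sum := by
      simp only [Multiset.sum_cons]; ring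
    rw [hp1, hp, e]
    simp only [mul_assoc]

/-- extraction of a family of odd blocks with sum zero -/
lemma extracts (x b : G) (Bs : List (Multiset ℤ)) : ∀ (l : List (Bool × ℤ))
    (R : Multiset (Bool × ℤ)),
    (∀ S ∈ Bs, S.sum = 0 ∧ ∃ r, S.card = 2 * r + 1) →
    (l : Multiset (Bool × ℤ)) = Bs.sum.map (fun k => (false, k)) + R →
    ∃ l' : List (Bool × ℤ), (l' : Multiset (Bool × ℤ)) = R ∧
      ∃ (h : ℕ) (κ : G), 2 * h + Bs.length = Bs.sum.card ∧ PC h κ ∧
        pr x b l = κ * pr x b l' := by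
  induction Bs with
  | nil =>
    intro l R _ h
    exact ⟨l, by simpa using h, 0, 1, by simp, PC.zero, by simp⟩
  | cons S Bs ih =>
    intro l R hB h
    obtain ⟨hS, r, hr⟩ := hB S (by simp)
    obtain ⟨l1, hl1, κ1, c, hκ1, hp1⟩ := extract x b r l S
      (Bs.sum.map (fun k => (false, k)) + R) (by rw [h]; simp [add_assoc]) hr
    obtain ⟨l', hl', h', κ, hh', hκ, hp⟩ := ih l1 R (fun S' hS' => hB S' (by simp [hS'])) hl1
    refine ⟨l', hl', r + h', κ1 * κ, ?_, hκ1.mul hκ, ?_⟩
    · rw [List.sum_cons, Multiset.card_add, hr, ← hh', List.length_cons]; ring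
    · rw [hp1, hp, hS]; simp [mul_assoc]

lemma pr_true (x b : G) (l : List (Bool × ℤ)) (h : ∀ p ∈ l, p.1 = true) :
    pr x b l = (b * x * b⁻¹) ^ (l.map Prod.snd).sum := by
  induction l with
  | nil => simp [pr]
  | cons p l ih =>
    rw [pr_cons, ih (fun q hq => h q (by simp [hq])), List.map_cons, List.sum_cons, zpow_add]
    congr 1
    obtain ⟨p1, p2⟩ := p
    have : p1 = true := h (p1, p2) (by simp)
    subst this
    exact val_true x b p2

/-- The upper bound: the product of a list of powers of `x` and of `b x b⁻¹`, where the powers of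
`x` are split in blocks of odd size, all but one of them with sum zero. -/
theorem upper (x b : G) (l : List (Bool × ℤ)) (Bs : List (Multiset ℤ)) (S Y : Multiset ℤ)
    (hl : (l : Multiset (Bool × ℤ)) =
      (Bs.sum + S).map (fun k => (false, k)) + Y.map (fun k => (true, k)))
    (hB : ∀ S ∈ Bs, S.sum = 0 ∧ ∃ r, S.card = 2 * r + 1)
    (hS : ∃ r, S.card = 2 * r + 1) (h0 : S.sum + Y.sum = 0) :
    ∃ g, 2 * g + Bs.length = (Bs.sum + S).card + 1 ∧ PC g (pr x b l) := by
  obtain ⟨r, hr⟩ := hS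
  obtain ⟨l1, hl1, h, κ, hh, hκ, hp⟩ := extracts x b Bs l
    (S.map (fun k => (false, k)) + Y.map (fun k => (true, k))) hB (by rw [hl]; simp [add_assoc])
  obtain ⟨l2, hl2, κ2, c, hκ2, hp2⟩ := extract x b r l1 S (Y.map (fun k => (true, k))) hl1 hr
  have hl2' : ∀ p ∈ l2, p.1 = true := by
    intro p hp
    rw [← Multiset.mem_coe, hl2, Multiset.mem_map] at hp
    obtain ⟨k, _, rfl⟩ := hp
    rfl
  have hsum : (l2.map Prod.snd).sum = Y.sum := by
    have e : (↑(l2.map Prod.snd) : Multiset ℤ) = Y := by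
      rw [← Multiset.map_coe, hl2, Multiset.map_map]; simp
    rw [← e, Multiset.sum_coe]
  have hY : Y.sum = - S.sum := by linarith
  refine ⟨h + (r + 1), ?_, ?_⟩
  · rw [Multiset.card_add, hr, ← hh]; ring
  · rw [hp, hp2, pr_true x b l2 hl2', hsum, hY]
    have e : κ * (κ2 * (c * x ^ S.sum * c⁻¹) * (b * x * b⁻¹) ^ (-S.sum)) =
        κ * (κ2 * ((c * x ^ S.sum * c⁻¹) * (b * c⁻¹) * (c * x ^ S.sum * c⁻¹)⁻¹ *
          (b * c⁻¹)⁻¹)) := by
      rw [conj_zpow]
      group
    rw [e]
    exact hκ.mul (hκ2.mul (PC.one _ _))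

end H74CL
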