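import Pool.Agent.Helper74.CL.Lower
import Pool.Agent.Helper74.CL.Upper

/-!
The two bounds in terms of lists of syllables `(e, f)`, standing for `∏ a^e (b a b⁻¹)^f`.
-/

set_option autoImplicit false

namespace H74CL

/-- the word `∏ a^e (b a b⁻¹)^f` -/
def wd (E : List (ℤ × ℤ)) : FreeGroup (Fin 2) :=
  (E.map (fun t => ga ^ t.1 * (gb * ga * gb⁻¹) ^ t.2)).prod

/-- `z` bounds the number of disjoint nonempty zero sum submultisets of `T` -/
def Bound (T : Multiset ℤ) (z : ℕ) : Prop :=
  ∀ F : Multiset (Multiset ℤ), (∀ M ∈ F, M ≠ 0 ∧ M.sum = 0) → F.sum ≤ T → F.card ≤ z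

/-- the lower bound for the genus of a one sided word -/
theorem lower (E : List (ℤ × ℤ)) (hE : E ≠ []) (h1 : ∀ t ∈ E, t.1 ≠ 0) (h2 : ∀ t ∈ E, t.2 < 0)
    (g z : ℕ) (hPC : PC g (wd E)) (hB : Bound (↑(E.map Prod.fst)) z) :
    E.length + 1 ≤ z + 2 * g := by
  set S : List (ℕ × Bool × ℕ) :=
    E.map (fun t => (t.1.natAbs - 1, decide (0 < t.1), t.2.natAbs - 1)) with hSdef
  have hS : S ≠ [] := by
    intro h
    exact hE (List.map_eq_nil_iff.1 h)
  have e1 : ∀ t ∈ E, sgn (decide (0 < t.1)) * ((t.1.natAbs - 1 + 1 : ℕ) : ℤ) = t.1 := by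
    intro t ht
    have h3 := h1 t ht
    have h4 : t.1.natAbs - 1 + 1 = t.1.natAbs := by omega
    rw [h4]
    by_cases h5 : 0 < t.1
    · rw [decide_eq_true h5]
      simp only [sgn, if_true, one_mul]
      omega
    · rw [decide_eq_false h5]
      simp only [sgn, Bool.false_eq_true, if_false]
      omega
  have e2 : ∀ t ∈ E, -((t.2.natAbs - 1 + 1 : ℕ) : ℤ) = t.2 := by
    intro t ht
    have h3 := h2 t ht
    omega
  have hmk : FreeGroup.mk ((dec S).map DL.letter) = wd E := by
    rw [mk_dec, wd, hSdef, List.map_map]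
    congr 1
    refine List.map_congr_left (fun t ht => ?_)
    simp only [Function.comp_apply]
    rw [e1 t ht, e2 t ht]
  have hgen : Gen ((dec S).map DL.letter) g := gen_of_PC hPC _ (red_dec S) hmk
  have hfst : S.map (fun t => sgn t.2.1 * ((t.1 + 1 : ℕ) : ℤ)) = E.map Prod.fst := by
    rw [hSdef, List.map_map]
    refine List.map_congr_left (fun t ht => ?_)
    simp only [Function.comp_apply]
    exact e1 t ht
  have := lower_aux S hS g z hgen (fun F hF hF' => hB F hF (by rw [hfst] at hF'; exact hF'))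
  rwa [hSdef, List.length_map] at this

end H74CL
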