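import Pool.Agent.Helper74.CL.Word
import Pool.Agent.Helper74.CL.Ree

/-!
The lower bound for the commutator length of one sided words.
-/

set_option autoImplicit false

namespace H74CL

open DL

/-- letters of the `x` side -/
def xs : DL → Prop
  | X _ _ _ => True
  | Bp => True
  | _ => False

/-- height -/
def hgt : DL → ℕ
  | X _ _ k => k + 1
  | _ => 0

/-- remaining exponent -/
def rho : DL → ℤ
  | X _ s k => sgn s * ((k + 1 : ℕ) : ℤ)
  | _ => 0

/-- sign of an `x` letter -/
def sg : DL → ℤ
  | X _ s _ => sgn s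
  | _ => 0

lemma sgn_not (s : Bool) : sgn (!s) = - sgn s := by cases s <;> simp [sgn]

/-- the permutation `i ↦ i + 1` of `ℤ / n` -/
noncomputable def rot (n : ℕ) (hn : 0 < n) : Equiv.Perm (Fin n) :=
  Equiv.ofBijective (fun i => (⟨(i.1 + 1) % n, Nat.mod_lt _ hn⟩ : Fin n)) (by
    rw [← Finite.injective_iff_bijective]
    intro i j h
    have h1 : (i.1 + 1) % n = (j.1 + 1) % n := congrArg Fin.val h
    have hi := i.2
    have hj := j.2
    apply Fin.ext
    by_cases h2 : i.1 + 1 < n
    · by_cases h3 : j.1 + 1 < n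
      · rw [Nat.mod_eq_of_lt h2, Nat.mod_eq_of_lt h3] at h1
        omega
      · have h4 : j.1 + 1 = n := by omega
        rw [h4, Nat.mod_self, Nat.mod_eq_of_lt h2] at h1
        omega
    · have h5 : i.1 + 1 = n := by omega
      by_cases h3 : j.1 + 1 < n
      · rw [h5, Nat.mod_self, Nat.mod_eq_of_lt h3] at h1
        omega
      · omega)

lemma rot_val (n : ℕ) (hn : 0 < n) (i : Fin n) : (rot n hn i).1 = (i.1 + 1) % n := rfl

theorem lower_aux (S : List (ℕ × Bool × ℕ)) (hS : S ≠ []) (g z : ℕ)
    (hg : Gen ((dec S).map letter) g)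
    (hz : ∀ F : Multiset (Multiset ℤ), (∀ M ∈ F, M ≠ 0 ∧ M.sum = 0) →
      F.sum ≤ ↑(S.map (fun t => sgn t.2.1 * ((t.1 + 1 : ℕ) : ℤ))) → F.card ≤ z) :
    S.length + 1 ≤ z + 2 * g := by
  classical
  obtain ⟨π, c, hG, hcard⟩ := hg
  have hlen : ((dec S).map letter).length = (dec S).length := List.length_map _
  obtain ⟨hlt, hinv, hlab, hcyc, hcol⟩ := hG
  rw [hlen] at hlt hinv hlab hcyc hcol hcard
  have hcolsdef : ∀ v, v ∈ cols ((dec S).map letter) c ↔ ∃ i, i < (dec S).length + 1 ∧ c i = v := by
    intro v
    simp only [cols, hlen, Finset.mem_image, Finset.mem_range]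
  have hn : 0 < (dec S).length := by
    cases S with
    | nil => exact absurd rfl hS
    | cons t S => rw [dec_cons, List.length_append]; simp [blk]
  have hlab' : ∀ i (hi : i < (dec S).length), letter ((dec S)[π i]'(hlt i hi)) =
      il (letter ((dec S)[i])) := by
    intro i hi
    have h1 := hlab i hi
    rw [List.getElem?_map, List.getElem?_map, List.getElem?_eq_getElem (hlt i hi),
      List.getElem?_eq_getElem hi] at h1
    exact Option.some.inj h1
  have hcycR := cyc_R S hS
  have hwb : ∑ i : Fin (dec S).length, wb (dec S)[i] = 2 * S.length := by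
    rw [← sum_wb S]
    exact Fin.sum_univ_fun_getElem (dec S) wb
  have hwf : ∑ i : Fin (dec S).length, wf (dec S)[i] =
      ↑(S.map (fun t => sgn t.2.1 * ((t.1 + 1 : ℕ) : ℤ))) := by
    rw [← sum_wf S]
    exact Fin.sum_univ_fun_getElem (dec S) wf
  rw [← hwf] at hz
  clear hwf
  set n : ℕ := (dec S).length with hndef
  let dl : Fin n → DL := fun i => (dec S)[i]
  let pi : Fin n → Fin n := fun i => ⟨π i.1, hlt i.1 i.2⟩
  have hpi : ∀ i, pi (pi i) = i := fun i => Fin.ext (hinv i.1 i.2)
  have hpl : ∀ i, letter (dl (pi i)) = il (letter (dl i)) := fun i => hlab' i.1 i.2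
  have hpl1 : ∀ i, (letter (dl (pi i))).1 = (letter (dl i)).1 := fun i => by rw [hpl]; rfl
  -- the two parts of the pairing
  let pa : Fin n → Fin n := fun i => if (letter (dl i)).1 = 0 then pi i else i
  let pb : Fin n → Fin n := fun i => if (letter (dl i)).1 = 0 then i else pi i
  have hpa : ∀ i, pa (pa i) = i := by
    intro i
    by_cases h : (letter (dl i)).1 = 0
    · have h1 : pa i = pi i := if_pos h
      have h2 : pa (pi i) = pi (pi i) := if_pos (by rw [hpl1]; exact h)
      rw [h1, h2, hpi]
    · have h1 : pa i = i := if_neg h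
      rw [h1, h1]
  have hpb : ∀ i, pb (pb i) = i := by
    intro i
    by_cases h : (letter (dl i)).1 = 0
    · have h1 : pb i = i := if_pos h
      rw [h1, h1]
    · have h1 : pb i = pi i := if_neg h
      have h2 : pb (pi i) = pi (pi i) := if_neg (by rw [hpl1]; exact h)
      rw [h1, h2, hpi]
  let p : Equiv.Perm (Fin n) := ⟨pa, pa, hpa, hpa⟩
  let q : Equiv.Perm (Fin n) := ⟨pb, pb, hpb, hpb⟩
  let φ : Equiv.Perm (Fin n) := q.trans (rot n hn)
  have hφ : ∀ i, φ i = rot n hn (pb i) := fun i => rfl
  have hp : ∀ i, p i = pa i := fun i => rfl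
  -- the colours
  let K : Type := {v // v ∈ cols ((dec S).map letter) c}
  let cc : Fin n → K := fun i => ⟨c i.1, (hcolsdef _).2 ⟨i.1, by have := i.2; omega, rfl⟩⟩
  have hcc : Function.Surjective cc := by
    rintro ⟨v, hv⟩
    obtain ⟨i, hi, rfl⟩ := (hcolsdef v).1 hv
    by_cases h : i < n
    · exact ⟨⟨i, h⟩, rfl⟩
    · have : i = n := by omega
      subst this
      exact ⟨⟨0, hn⟩, Subtype.ext hcyc⟩
  have hccol : ∀ i, cc (φ (p i)) = cc i := by
    intro i
    have h1 : φ (p i) = rot n hn (pi i) := by
      rw [hφ, hp]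
      by_cases h : (letter (dl i)).1 = 0
      · have h1 : pa i = pi i := if_pos h
        have h2 : pb (pi i) = pi i := if_pos (by rw [hpl1]; exact h)
        rw [h1, h2]
      · have h1 : pa i = i := if_neg h
        have h2 : pb i = pi i := if_neg h
        rw [h1, h2]
    rw [h1]
    apply Subtype.ext
    change c ((π i.1 + 1) % n) = c i.1
    rw [hcol i.1 i.2]
    have := hlt i.1 i.2
    by_cases h : π i.1 + 1 < n
    · rw [Nat.mod_eq_of_lt h]
    · have h2 : π i.1 + 1 = n := by omega
      rw [h2, Nat.mod_self, hcyc]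
  -- positive letters
  let A : Finset (Fin n) := Finset.univ.filter (fun i => letter (dl i) = (0, true))
  let A' : Finset (Fin n) := Finset.univ.filter (fun i => letter (dl i) = (0, false))
  have hA : ∀ i, i ∈ A ∨ p i ∈ A ∨ p i = i := by
    intro i
    by_cases h : (letter (dl i)).1 = 0
    · rcases hs : (letter (dl i)).2 with _ | _
      · right; left
        have h1 : p i = pi i := if_pos h
        rw [h1]
        refine Finset.mem_filter.2 ⟨Finset.mem_univ _, ?_⟩
        rw [hpl]
        exact Prod.ext h (by simp [il, hs])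
      · left
        exact Finset.mem_filter.2 ⟨Finset.mem_univ _, Prod.ext h hs⟩
    · right; right; exact if_neg h
  -- successor rules
  have hstep : ∀ i : Fin n, R (dl i) (dl (rot n hn i)) := by
    intro i
    exact hcycR i.1 i.2 (rot n hn i).1 (rot n hn i).2 rfl
  have stX : ∀ i f s k, dl i = X f s k → R (X f s k) (dl (φ i)) := by
    intro i f s k h
    have h1 : pb i = i := if_pos (by rw [h]; rfl)
    rw [hφ, h1, ← h]
    exact hstep i
  have stY : ∀ i, dl i = Y → dl (φ i) = Y ∨ dl (φ i) = Bm := by
    intro i h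
    have h1 : pb i = i := if_pos (by rw [h]; rfl)
    have h2 := hstep i
    rw [h] at h2
    rw [hφ, h1]
    exact h2
  have letterB : ∀ u : DL, letter u = (1, false) → u = Bm := by
    rintro (⟨f, s, k⟩ | _ | _ | _) h
    · exact absurd (congrArg Prod.fst h) (show ¬ ((0 : Fin 2) = 1) by decide)
    · exact absurd (congrArg Prod.snd h) (by decide)
    · exact absurd (congrArg Prod.fst h) (by decide)
    · rfl
  have letterB' : ∀ u : DL, letter u = (1, true) → u = Bp := by
    rintro (⟨f, s, k⟩ | _ | _ | _) h
    · exact absurd (congrArg Prod.fst h) (show ¬ ((0 : Fin 2) = 1) by decide)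
    · rfl
    · exact absurd (congrArg Prod.snd h) (by decide)
    · exact absurd (congrArg Prod.snd h) (by decide)
  have stBp : ∀ i, dl i = Bp → ∃ s k, dl (φ i) = X true s k := by
    intro i h
    have h1 : pb i = pi i := if_neg (by rw [h]; decide)
    have h2 : dl (pi i) = Bm := letterB _ (by rw [hpl, h]; rfl)
    have h3 := hstep (pi i)
    rw [h2] at h3
    rw [hφ, h1]
    exact h3
  have stBm : ∀ i, dl i = Bm → dl (φ i) = Y := by
    intro i h
    have h1 : pb i = pi i := if_neg (by rw [h]; decide)
    have h2 : dl (pi i) = Bp := letterB' _ (by rw [hpl, h]; rfl)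
    have h3 := hstep (pi i)
    rw [h2] at h3
    rw [hφ, h1]
    exact h3
  -- the `x` side is invariant
  have hT1 : ∀ e, xs (dl e) → xs (dl (φ e)) := by
    intro e h
    rcases hd : dl e with ⟨f, s, _ | k⟩ | _ | _ | _
    · have h2 : dl (φ e) = Bp := stX e f s 0 hd
      rw [h2]; trivial
    · have h2 : dl (φ e) = X false s k := stX e f s (k + 1) hd
      rw [h2]; trivial
    · obtain ⟨s, k, h2⟩ := stBp e hd
      rw [h2]; trivial
    · rw [hd] at h; exact h.elim
    · rw [hd] at h; exact h.elim
  have hT2 : ∀ e, ¬ xs (dl e) → ¬ xs (dl (φ e)) := by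
    intro e h
    rcases hd : dl e with ⟨f, s, k⟩ | _ | _ | _
    · rw [hd] at h; exact absurd trivial h
    · rw [hd] at h; exact absurd trivial h
    · rcases stY e hd with h2 | h2 <;> rw [h2] <;> exact fun h => h
    · rw [stBm e hd]; exact fun h => h
  have hT : ∀ e, e ∈ {e | xs (dl e)} ↔ φ e ∈ {e | xs (dl e)} := fun e =>
    ⟨hT1 e, fun h => by by_contra h'; exact hT2 e h' h⟩
  -- isolated classes
  obtain ⟨Q', k', I, hI, hk1, hk2, hne, hiso⟩ := ree_iso A φ p cc hcc hpa hccol hA
  -- the key claim
  have key : ∀ x ∈ I, (∃ i, k' i = x ∧ (∃ s k, dl i = X true s k)) ∧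
      ∑ i ∈ Finset.univ.filter (fun i => k' i = x), (wf (dl i)).sum = 0 := by
    intro x hx
    obtain ⟨i0, hi0⟩ := hne x hx
    have hside : ∀ i, k' i = x → xs (dl i) := by
      by_contra hcon
      push Not at hcon
      obtain ⟨i1, hi1, hi1'⟩ := hcon
      have h1 : ∀ i, k' i = x → ¬ xs (dl i) := fun i hi hi' =>
        hi1' (hiso x hx {e | xs (dl e)} hT i i1 hi hi1 hi')
      have h2 : ∃ i, k' i = x ∧ dl i = Y := by
        rcases hd : dl i1 with ⟨f, s, k⟩ | _ | _ | _
        · rw [hd] at hi1'; exact absurd trivial hi1'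
        · rw [hd] at hi1'; exact absurd trivial hi1'
        · exact ⟨i1, hi1, hd⟩
        · exact ⟨φ i1, by rw [hk1, hi1], stBm i1 hd⟩
      obtain ⟨i2, hi2, hd2⟩ := h2
      have h3 : k' (p i2) = x := by rw [hk2, hi2]
      apply h1 _ h3
      have h4 : p i2 = pi i2 := if_pos (by rw [hd2]; rfl)
      rw [h4]
      have h5 : letter (dl (pi i2)) = (0, true) := by rw [hpl, hd2]; rfl
      rcases hd : dl (pi i2) with ⟨f, s, k⟩ | _ | _ | _
      · trivial
      · trivial
      · rw [hd] at h5; exact absurd (congrArg Prod.snd h5) (by decide)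
      · rw [hd] at h5; exact absurd (congrArg Prod.snd h5) (by decide)
    have hsum : ∀ {M : Type} [AddCommMonoid M] (f : Fin n → M),
        ∑ i ∈ Finset.univ.filter (fun i => k' i = x), f (φ i) =
        ∑ i ∈ Finset.univ.filter (fun i => k' i = x), f i := by
      intro M _ f
      refine Finset.sum_equiv φ ?_ ?_
      · intro i
        simp [hk1]
      · intro i _; rfl
    have hsump : ∀ {M : Type} [AddCommMonoid M] (f : Fin n → M),
        ∑ i ∈ Finset.univ.filter (fun i => k' i = x), f (p i) =
        ∑ i ∈ Finset.univ.filter (fun i => k' i = x), f i := by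
      intro M _ f
      refine Finset.sum_equiv p ?_ ?_
      · intro i
        simp [hk2]
      · intro i _; rfl
    refine ⟨?_, ?_⟩
    · -- a first letter exists
      by_contra hcon
      push Not at hcon
      have h1 : ∀ i, k' i = x → hgt (dl (φ i)) + 1 = hgt (dl i) := by
        intro i hi
        have hs := hside i hi
        rcases hd : dl i with ⟨f, s, _ | k⟩ | _ | _ | _
        · have h2 : dl (φ i) = Bp := stX i f s 0 hd
          rw [h2]; rfl
        · have h2 : dl (φ i) = X false s k := stX i f s (k + 1) hd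
          rw [h2]; rfl
        · obtain ⟨s, k, h2⟩ := stBp i hd
          exact absurd h2 (hcon (φ i) (by rw [hk1, hi]) s k)
        · rw [hd] at hs; exact hs.elim
        · rw [hd] at hs; exact hs.elim
      have h2 : ∑ i ∈ Finset.univ.filter (fun i => k' i = x), (hgt (dl (φ i)) + 1) =
          ∑ i ∈ Finset.univ.filter (fun i => k' i = x), hgt (dl i) :=
        Finset.sum_congr rfl (fun i hi => h1 i (Finset.mem_filter.1 hi).2)
      rw [Finset.sum_add_distrib, hsum (fun i => hgt (dl i)), Finset.sum_const, smul_eq_mul,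
        mul_one] at h2
      have h3 : 0 < (Finset.univ.filter (fun i => k' i = x)).card :=
        Finset.card_pos.2 ⟨i0, by simp [hi0]⟩
      omega
    · have h1 : ∀ i, k' i = x → rho (dl (φ i)) + sg (dl i) = rho (dl i) + (wf (dl (φ i))).sum := by
        intro i hi
        have hs := hside i hi
        rcases hd : dl i with ⟨f, s, _ | k⟩ | _ | _ | _
        · have h2 : dl (φ i) = Bp := stX i f s 0 hd
          rw [h2]; simp [rho, sg, wf]
        · have h2 : dl (φ i) = X false s k := stX i f s (k + 1) hd
          rw [h2]; simp [rho, sg, wf]; ring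
        · obtain ⟨s, k, h2⟩ := stBp i hd
          rw [h2]; simp [rho, sg, wf]
        · rw [hd] at hs; exact hs.elim
        · rw [hd] at hs; exact hs.elim
      have h2 : ∑ i ∈ Finset.univ.filter (fun i => k' i = x), (rho (dl (φ i)) + sg (dl i)) =
          ∑ i ∈ Finset.univ.filter (fun i => k' i = x), (rho (dl i) + (wf (dl (φ i))).sum) :=
        Finset.sum_congr rfl (fun i hi => h1 i (Finset.mem_filter.1 hi).2)
      rw [Finset.sum_add_distrib, Finset.sum_add_distrib, hsum (fun i => rho (dl i)),
        hsum (fun i => (wf (dl i)).sum)] at h2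
      have h3 : ∑ i ∈ Finset.univ.filter (fun i => k' i = x), sg (dl i) =
          ∑ i ∈ Finset.univ.filter (fun i => k' i = x), - sg (dl i) := by
        rw [← hsump (fun i => sg (dl i))]
        refine Finset.sum_congr rfl (fun i hi => ?_)
        have hi := (Finset.mem_filter.1 hi).2
        have hs := hside i hi
        have hs' := hside (p i) (by rw [hk2, hi])
        rcases hd : dl i with ⟨f, s, k⟩ | _ | _ | _
        · have h4 : p i = pi i := if_pos (by rw [hd]; rfl)
          rw [h4] at hs' ⊢
          have h5 : letter (dl (pi i)) = (0, !s) := by rw [hpl, hd]; rfl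
          rcases hd' : dl (pi i) with ⟨f', s', k'⟩ | _ | _ | _
          · rw [hd'] at h5
            have h6 : s' = !s := congrArg Prod.snd h5
            rw [h6]
            exact sgn_not s
          · rw [hd'] at h5
            exact absurd (congrArg Prod.fst h5) (show ¬ ((1 : Fin 2) = 0) by decide)
          · rw [hd'] at hs'; exact hs'.elim
          · rw [hd'] at hs'; exact hs'.elim
        · have h4 : p i = i := if_neg (by rw [hd]; decide)
          rw [h4, hd]; rfl
        · rw [hd] at hs; exact hs.elim
        · rw [hd] at hs; exact hs.elim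
      rw [Finset.sum_neg_distrib] at h3
      linarith
  -- the family of zero sum multisets
  have hIz : I.card ≤ z := by
    have := hz (I.val.map (fun x => ∑ i ∈ Finset.univ.filter (fun i => k' i = x), wf (dl i))) ?_ ?_
    · rwa [Multiset.card_map] at this
    · intro M hM
      obtain ⟨x, hx, rfl⟩ := Multiset.mem_map.1 hM
      obtain ⟨⟨i, hi, s, k, hd⟩, h2⟩ := key x hx
      refine ⟨?_, ?_⟩
      · intro h0
        rw [Finset.sum_eq_zero_iff] at h0
        have := h0 i (by simp [hi])
        rw [hd] at this
        simp [wf] at this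
      · rw [← h2]
        exact map_sum Multiset.sumAddMonoidHom _ _
    · change ∑ x ∈ I, ∑ i ∈ Finset.univ.filter (fun i => k' i = x), wf (dl i) ≤ _
      have h1 : ∑ x ∈ I, ∑ i ∈ Finset.univ.filter (fun i => k' i = x), wf (dl i) =
          ∑ i ∈ Finset.univ.filter (fun i => k' i ∈ I), wf (dl i) := by
        rw [← Finset.sum_fiberwise_of_maps_to (s := Finset.univ.filter (fun i => k' i ∈ I))
          (t := I) (g := k') (fun i hi => (Finset.mem_filter.1 hi).2)]
        refine Finset.sum_congr rfl (fun x hx => ?_)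
        refine Finset.sum_congr ?_ (fun _ _ => rfl)
        ext i
        simp only [Finset.mem_filter, Finset.mem_univ, true_and]
        constructor
        · intro h; exact ⟨by rw [h]; exact hx, h⟩
        · intro h; exact h.2
      rw [h1]
      exact Finset.sum_le_sum_of_subset (Finset.filter_subset _ _)
  -- counting
  have hKcard : Fintype.card K = (cols ((dec S).map letter) c).card := Fintype.card_coe _
  have hAA' : A.card = A'.card := by
    refine Finset.card_bij' (fun i _ => pi i) (fun i _ => pi i) ?_ ?_ ?_ ?_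
    · intro i hi
      refine Finset.mem_filter.2 ⟨Finset.mem_univ _, ?_⟩
      rw [hpl, (Finset.mem_filter.1 hi).2]; rfl
    · intro i hi
      refine Finset.mem_filter.2 ⟨Finset.mem_univ _, ?_⟩
      rw [hpl, (Finset.mem_filter.1 hi).2]; rfl
    · intro i _; exact hpi i
    · intro i _; exact hpi i
  have hcount : n = A.card + A'.card + 2 * S.length := by
    rw [← hwb, Finset.card_filter, Finset.card_filter, ← Finset.sum_add_distrib,
      ← Finset.sum_add_distrib]
    have : ∀ i : Fin n, ((if letter (dl i) = (0, true) then 1 else 0) +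
        (if letter (dl i) = (0, false) then 1 else 0)) + wb (dec S)[i] = 1 := by
      intro i
      change ((if letter (dl i) = (0, true) then 1 else 0) +
        (if letter (dl i) = (0, false) then 1 else 0)) + wb (dl i) = 1
      rcases dl i with ⟨f, _ | _, k⟩ | _ | _ | _ <;> simp [letter, wb]
    rw [Finset.sum_congr rfl (fun i _ => this i)]
    simp
  omega

end H74CL
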