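import Pool.Agent.Helper74.CL.Defs

/-!
Products of commutators in the group of lifts of circle homeomorphisms.
-/

set_option autoImplicit false

namespace H74CL

open CircleDeg1Lift

lemma comm_lt_one (a b : CircleDeg1Liftˣ) :
    ∃ x : ℝ, ((a * b * a⁻¹ * b⁻¹ : CircleDeg1Liftˣ) : CircleDeg1Lift) x < x + 1 := by
  by_contra hcon
  push Not at hcon
  have h1 : ∀ y : ℝ, ((b * a : CircleDeg1Liftˣ) : CircleDeg1Lift) y + 1 ≤
      ((a * b : CircleDeg1Liftˣ) : CircleDeg1Lift) y := by
    intro y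
    have := hcon (((b * a : CircleDeg1Liftˣ) : CircleDeg1Lift) y)
    have e : ((a * b * a⁻¹ * b⁻¹ : CircleDeg1Liftˣ) : CircleDeg1Lift)
        (((b * a : CircleDeg1Liftˣ) : CircleDeg1Lift) y) =
        ((a * b : CircleDeg1Liftˣ) : CircleDeg1Lift) y := by
      rw [← CircleDeg1Lift.mul_apply, ← Units.val_mul]
      congr 2
      group
    rw [e] at this
    exact this
  have h2 : ((translate (Multiplicative.ofAdd (1 : ℝ)) : CircleDeg1Liftˣ) : CircleDeg1Lift) *
      ((b * a : CircleDeg1Liftˣ) : CircleDeg1Lift) ≤ ((a * b : CircleDeg1Liftˣ) : CircleDeg1Lift) := by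
    intro y
    rw [CircleDeg1Lift.mul_apply, translate_apply]
    linarith [h1 y]
  have h3 := translationNumber_mono h2
  have hc : Commute ((translate (Multiplicative.ofAdd (1 : ℝ)) : CircleDeg1Liftˣ) : CircleDeg1Lift)
      ((b * a : CircleDeg1Liftˣ) : CircleDeg1Lift) := by
    rw [commute_iff_commute]
    intro y
    rw [translate_apply, translate_apply, map_one_add]
  rw [translationNumber_mul_of_commute hc, translationNumber_translate] at h3
  have h4 : translationNumber ((a * b : CircleDeg1Liftˣ) : CircleDeg1Lift) =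
      translationNumber ((b * a : CircleDeg1Liftˣ) : CircleDeg1Lift) := by
    have := translationNumber_conj_eq a ((b * a : CircleDeg1Liftˣ) : CircleDeg1Lift)
    rw [← this, ← Units.val_mul, ← Units.val_mul]
    congr 2
    group
  rw [h4] at h3
  linarith

lemma comm_lt_two (a b : CircleDeg1Liftˣ) (x : ℝ) :
    ((a * b * a⁻¹ * b⁻¹ : CircleDeg1Liftˣ) : CircleDeg1Lift) x < x + 2 := by
  obtain ⟨y, hy⟩ := comm_lt_one a b
  set f := ((a * b * a⁻¹ * b⁻¹ : CircleDeg1Liftˣ) : CircleDeg1Lift) with hf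
  have h1 : (⌊x - y⌋ : ℝ) ≤ x - y := Int.floor_le _
  have h2 : x - y < ⌊x - y⌋ + 1 := Int.lt_floor_add_one _
  have h3 : f x ≤ f (y + ((⌊x - y⌋ + 1 : ℤ) : ℝ)) := f.mono (by push_cast; linarith)
  rw [map_add_int] at h3
  push_cast at h3
  linarith

lemma prod_lt (l : List (CircleDeg1Liftˣ × CircleDeg1Liftˣ)) (hl : l ≠ []) :
    ∃ x : ℝ, (((l.map (fun p => p.1 * p.2 * p.1⁻¹ * p.2⁻¹)).prod : CircleDeg1Liftˣ) :
      CircleDeg1Lift) x < x + 2 * l.length - 1 := by
  induction l with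
  | nil => exact absurd rfl hl
  | cons p l ih =>
    by_cases h : l = []
    · subst h
      obtain ⟨x, hx⟩ := comm_lt_one p.1 p.2
      refine ⟨x, ?_⟩
      rw [List.map_cons, List.map_nil, List.prod_cons, List.prod_nil, mul_one,
        List.length_cons, List.length_nil, Nat.cast_add, Nat.cast_one, Nat.cast_zero]
      linarith
    · obtain ⟨x, hx⟩ := ih h
      refine ⟨x, ?_⟩
      rw [List.map_cons, List.prod_cons, Units.val_mul, CircleDeg1Lift.mul_apply]
      have := comm_lt_two p.1 p.2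
        ((((l.map (fun p => p.1 * p.2 * p.1⁻¹ * p.2⁻¹)).prod : CircleDeg1Liftˣ) :
      CircleDeg1Lift) x)
      rw [List.length_cons, Nat.cast_add, Nat.cast_one]
      linarith

/-- a product of `g ≥ 1` commutators moves some point by less than `2 g - 1` -/
lemma PC.lt {g : ℕ} (hg : 1 ≤ g) {z : CircleDeg1Liftˣ} (hz : PC g z) :
    ∃ x : ℝ, (z : CircleDeg1Lift) x < x + 2 * g - 1 := by
  obtain ⟨l, rfl, rfl⟩ := hz
  exact prod_lt l (by rintro rfl; simp at hg)

/-- if `z` moves some point by `m` and is a product of `g ≥ 1` commutators, then `m < 2 g` -/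
lemma PC.lt_of_move {g : ℕ} (hg : 1 ≤ g) {z : CircleDeg1Liftˣ} (hz : PC g z) {m : ℕ} {p : ℝ}
    (hp : (z : CircleDeg1Lift) p = p + m) : m < 2 * g := by
  obtain ⟨x, hx⟩ := hz.lt hg
  set f := (z : CircleDeg1Lift) with hf
  have h1 : (⌊x - p⌋ : ℝ) ≤ x - p := Int.floor_le _
  have h2 : x - p < ⌊x - p⌋ + 1 := Int.lt_floor_add_one _
  have h3 : f (p + ((⌊x - p⌋ : ℤ) : ℝ)) ≤ f x := f.mono (by linarith)
  rw [map_add_int, hp] at h3
  have h4 : (m : ℝ) < 2 * g := by linarith
  exact_mod_cast h4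

lemma PC.map {G H : Type*} [Group G] [Group H] (φ : G →* H) {g : ℕ} {z : G} (hz : PC g z) :
    PC g (φ z) := by
  obtain ⟨l, rfl, rfl⟩ := hz
  refine ⟨l.map (fun p => (φ p.1, φ p.2)), by simp, ?_⟩
  rw [map_list_prod, List.map_map, List.map_map]
  congr 1
  apply List.map_congr_left
  intro p _
  simp

end H74CL
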