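import Pool.Agent.Helper74.CL.Nec1

/-!
Extension of partial maps of the marked circle to homeomorphisms.
-/

set_option autoImplicit false

namespace H74CL

/-- the tent -/
noncomputable def T (t : ℝ) : ℝ := max 0 (min (1 + t) (1 - t / 3))

lemma T_nonneg (t : ℝ) : 0 ≤ T t := le_max_left _ _

lemma T_le_one (t : ℝ) : T t ≤ 1 := by
  unfold T
  apply max_le zero_le_one
  rcases le_or_gt t 0 with h | h
  · exact (min_le_left _ _).trans (by linarith)
  · exact (min_le_right _ _).trans (by linarith)

lemma T_zero : T 0 = 1 := by unfold T; norm_num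

lemma T_left {t : ℝ} (h : t ≤ -1) : T t = 0 := by
  unfold T
  apply max_eq_left
  exact (min_le_left _ _).trans (by linarith)

lemma T_right {t : ℝ} (h : 3 ≤ t) : T t = 0 := by
  unfold T
  apply max_eq_left
  exact (min_le_right _ _).trans (by linarith)

lemma T_slope {s t : ℝ} (h : s ≤ t) : T s ≤ T t + (t - s) / 3 := by
  unfold T
  apply max_le
  · have := le_max_left 0 (min (1 + t) (1 - t / 3)); linarith
  · have h1 := le_max_right 0 (min (1 + t) (1 - t / 3))
    rcases min_choice (1 + t) (1 - t / 3) with h2 | h2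
    · have h3 : min (1 + s) (1 - s / 3) ≤ 1 + s := min_le_left _ _
      linarith
    · have h3 : min (1 + s) (1 - s / 3) ≤ 1 - s / 3 := min_le_right _ _
      linarith

lemma T_lip {s t : ℝ} (h : s ≤ t) : T t ≤ T s + (t - s) := by
  unfold T
  apply max_le
  · have := le_max_left 0 (min (1 + s) (1 - s / 3)); linarith
  · have h1 := le_max_right 0 (min (1 + s) (1 - s / 3))
    rcases min_choice (1 + s) (1 - s / 3) with h2 | h2
    · have h3 : min (1 + t) (1 - t / 3) ≤ 1 + t := min_le_left _ _
      linarith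
    · have h3 : min (1 + t) (1 - t / 3) ≤ 1 - t / 3 := min_le_right _ _
      linarith

open Classical in
/-- the supremum of the tents over a set of integers -/
noncomputable def Ph (P : ℤ → Prop) (x : ℝ) : ℝ := ⨆ i : ℤ, if P i then T (x - i) else 0

open Classical in
lemma Ph_bdd (P : ℤ → Prop) (x : ℝ) : BddAbove (Set.range fun i : ℤ => if P i then T (x - i) else 0) := by
  refine ⟨1, ?_⟩
  rintro _ ⟨i, rfl⟩
  dsimp only
  split_ifs
  · exact T_le_one _
  · exact zero_le_one

open Classical in
lemma le_Ph (P : ℤ → Prop) (x : ℝ) (i : ℤ) : (if P i then T (x - i) else 0) ≤ Ph P x :=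
  le_ciSup (Ph_bdd P x) i

lemma Ph_le {P : ℤ → Prop} {x c : ℝ} (h0 : 0 ≤ c) (h : ∀ i, P i → T (x - i) ≤ c) : Ph P x ≤ c := by
  apply ciSup_le
  intro i
  split_ifs with hi
  · exact h i hi
  · exact h0

lemma Ph_nonneg (P : ℤ → Prop) (x : ℝ) : 0 ≤ Ph P x := by
  refine le_trans ?_ (le_Ph P x 0)
  split_ifs
  · exact T_nonneg _
  · exact le_rfl

lemma T_le_Ph {P : ℤ → Prop} (x : ℝ) {i : ℤ} (h : P i) : T (x - i) ≤ Ph P x := by
  have := le_Ph P x i
  rwa [if_pos h] at this

lemma Ph_slope (P : ℤ → Prop) {x y : ℝ} (h : x ≤ y) : Ph P x ≤ Ph P y + (y - x) / 3 := by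
  apply Ph_le
  · have := Ph_nonneg P y; linarith
  · intro i hi
    have h1 := T_slope (s := x - i) (t := y - i) (by linarith)
    have h2 := T_le_Ph y hi
    linarith

lemma Ph_lip (P : ℤ → Prop) {x y : ℝ} (h : x ≤ y) : Ph P y ≤ Ph P x + (y - x) := by
  apply Ph_le
  · have := Ph_nonneg P x; linarith
  · intro i hi
    have h1 := T_lip (s := x - i) (t := y - i) (by linarith)
    have h2 := T_le_Ph x hi
    linarith

lemma Ph_one {P : ℤ → Prop} {i : ℤ} (h : P i) : Ph P i = 1 := by
  apply le_antisymm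
  · exact Ph_le zero_le_one (fun _ _ => T_le_one _)
  · have := T_le_Ph (i : ℝ) h
    rwa [sub_self, T_zero] at this

lemma Ph_zero {P : ℤ → Prop} {j : ℤ} (h0 : ¬ P j) (h1 : ¬ P (j - 1)) (h2 : ¬ P (j - 2)) :
    Ph P j = 0 := by
  apply le_antisymm _ (Ph_nonneg _ _)
  apply Ph_le le_rfl
  intro i hi
  apply le_of_eq
  rcases lt_trichotomy i j with h | h | h
  · apply T_right
    have : i ≤ j - 3 := by
      by_contra hc
      have h3 : i = j - 1 ∨ i = j - 2 := by omega
      rcases h3 with rfl | rfl
      · exact h1 hi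
      · exact h2 hi
    have h4 : (i : ℝ) ≤ (j : ℝ) - 3 := by exact_mod_cast this
    linarith
  · subst h; exact absurd hi h0
  · apply T_left
    have h4 : (j : ℝ) + 1 ≤ (i : ℝ) := by exact_mod_cast h
    linarith

lemma Ph_per {P : ℤ → Prop} {L : ℤ} (h : ∀ i, P (i + L) ↔ P i) (x : ℝ) : Ph P (x + L) = Ph P x := by
  apply le_antisymm
  · apply Ph_le (Ph_nonneg _ _)
    intro i hi
    have h1 : P (i - L) := by rw [← h]; simpa using hi
    have h2 := T_le_Ph x h1
    push_cast at h2
    have e : x + L - i = x - (i - L) := by ring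
    rw [e]; exact h2
  · apply Ph_le (Ph_nonneg _ _)
    intro i hi
    have h1 : P (i + L) := (h i).2 hi
    have h2 := T_le_Ph (x + L) h1
    push_cast at h2
    have e : x - i = x + L - (i + L) := by ring
    rw [e]; exact h2

lemma Ph_cont (P : ℤ → Prop) : Continuous (Ph P) := by
  have : LipschitzWith 1 (Ph P) := by
    apply LipschitzWith.of_le_add_mul
    intro x y
    rw [NNReal.coe_one, one_mul, Real.dist_eq]
    rcases le_total x y with h | h
    · have h1 := Ph_slope P h
      have h2 := le_abs_self (x - y)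
      have h3 := neg_abs_le (x - y)
      linarith
    · have h1 := Ph_lip P h
      have h2 := le_abs_self (x - y)
      linarith
  exact this.continuous

/-- extension of a partial map of the circle with `L` marked points -/
lemma exists_unit (L : ℤ) (hL : 0 < L) (P : ℤ → Prop) (h : ∀ i, P (i + L) ↔ P i) :
    ∃ U : CircleDeg1Liftˣ,
      (∀ i : ℤ, P i → (U : CircleDeg1Lift) (i / L) = (i + 1) / L) ∧
      (∀ i : ℤ, ¬ P (i + 1) → ¬ P i → ¬ P (i - 1) → (U : CircleDeg1Lift) ((i + 1) / L) = i / L) := by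
  have hL' : (0 : ℝ) < L := by exact_mod_cast hL
  set F : ℝ → ℝ := fun x => (L * x - 1 + 2 * Ph P (L * x)) / L with hF
  have hmono : StrictMono F := by
    intro x y hxy
    have h1 : L * x < L * y := mul_lt_mul_of_pos_left hxy hL'
    have h2 := Ph_slope P h1.le
    simp only [hF]
    apply div_lt_div_of_pos_right _ hL'
    linarith
  have hone : ∀ x, F (x + 1) = F x + 1 := by
    intro x
    simp only [hF]
    rw [mul_add, mul_one, Ph_per h]
    field_simp
    ring
  have hcont : Continuous F := by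
    simp only [hF]
    have := Ph_cont P
    fun_prop
  let f : CircleDeg1Lift := ⟨⟨F, hmono.monotone⟩, hone⟩
  have hf : ∀ x, f x = F x := fun _ => rfl
  have hbij : Function.Bijective f := by
    refine ⟨hmono.injective, ?_⟩
    rw [← CircleDeg1Lift.continuous_iff_surjective]
    exact hcont
  obtain ⟨U, hU⟩ := CircleDeg1Lift.isUnit_iff_bijective.2 hbij
  refine ⟨U, ?_, ?_⟩
  · intro i hi
    rw [hU, hf]
    simp only [hF]
    rw [mul_div_cancel₀ _ hL'.ne', Ph_one hi]
    ring
  · intro i h0 h1 h2
    rw [hU, hf]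
    simp only [hF]
    rw [mul_div_cancel₀ _ hL'.ne']
    have : Ph P ((i : ℝ) + 1) = 0 := by
      have := Ph_zero (P := P) (j := i + 1) h0 (by simpa using h1) (by
        have e : i + 1 - 2 = i - 1 := by ring
        rwa [e])
      push_cast at this
      exact this
    rw [this]
    ring

end H74CL
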