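import Pool.Agent.Helper74.CL.Adm

set_option autoImplicit false

namespace H74CL

theorem adm_small (k m : ℕ) (hm : m = 1 ∨ m = 2 ∨ m = 3 ∨ m = 4 ∨ m = 6) (hk : m < 2 * k) : Adm k m := by
  have h0 : ∀ m n : ℕ, 1 ≤ m → 1 ≤ n → Adm (n * m / 2 + 1) m := by
    intro m n hm hn
    have := adm_family m hm [] (by simp) n (by simpa using hn)
    simpa using this
  have h1 : ∀ m p n : ℕ, 1 ≤ m → 2 ≤ p → 2 ≤ n → Adm ((n * m - m / p) / 2 + 1) m := by
    intro m p n hm hp hn
    have := adm_family m hm [p] (by simpa using hp) (n - 2) (by simp)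
    have e : 2 * [p].length + (n - 2) = n := by simp; omega
    rw [e] at this
    simpa using this
  rcases hm with rfl | rfl | rfl | rfl | rfl
  · have := h0 1 (2 * (k - 1) + 1) (by norm_num) (by omega)
    have e : (2 * (k - 1) + 1) * 1 / 2 + 1 = k := by omega
    rwa [e] at this
  · have := h0 2 (k - 1) (by norm_num) (by omega)
    have e : (k - 1) * 2 / 2 + 1 = k := by omega
    rwa [e] at this
  · rcases (by omega : k % 3 = 0 ∨ k % 3 = 1 ∨ k % 3 = 2) with h | h | h
    · have := h1 3 2 (2 * (k / 3)) (by norm_num) (by norm_num) (by omega)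
      have e : (2 * (k / 3) * 3 - 3 / 2) / 2 + 1 = k := by omega
      rwa [e] at this
    · have := h0 3 (2 * (k / 3)) (by norm_num) (by omega)
      have e : 2 * (k / 3) * 3 / 2 + 1 = k := by omega
      rwa [e] at this
    · have := h0 3 (2 * (k / 3) + 1) (by norm_num) (by omega)
      have e : (2 * (k / 3) + 1) * 3 / 2 + 1 = k := by omega
      rwa [e] at this
  · rcases (by omega : k % 2 = 0 ∨ k % 2 = 1) with h | h
    · have := h1 4 2 (k / 2) (by norm_num) (by norm_num) (by omega)
      have e : (k / 2 * 4 - 4 / 2) / 2 + 1 = k := by omega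
      rwa [e] at this
    · have := h0 4 (k / 2) (by norm_num) (by omega)
      have e : k / 2 * 4 / 2 + 1 = k := by omega
      rwa [e] at this
  · rcases (by omega : k % 3 = 0 ∨ k % 3 = 1 ∨ k % 3 = 2) with h | h | h
    · have := h1 6 3 (k / 3) (by norm_num) (by norm_num) (by omega)
      have e : (k / 3 * 6 - 6 / 3) / 2 + 1 = k := by omega
      rwa [e] at this
    · have := h0 6 (k / 3) (by norm_num) (by omega)
      have e : k / 3 * 6 / 2 + 1 = k := by omega
      rwa [e] at this
    · have := h1 6 2 (k / 3 + 1) (by norm_num) (by norm_num) (by omega)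
      have e : ((k / 3 + 1) * 6 - 6 / 2) / 2 + 1 = k := by omega
      rwa [e] at this

end H74CL
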