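import Pool.Agent.Helper74.CL.Color

/-!
The genus bound is preserved by free reduction.
-/

set_option autoImplicit false

namespace H74CL

variable {α : Type*}

lemma Glue.ne {L : List (α × Bool)} {π c : ℕ → ℕ} (h : Glue L π c) {i : ℕ}
    (hi : i < L.length) : π i ≠ i := by
  intro e
  have := h.lab i hi
  rw [e, List.getElem?_eq_getElem hi, Option.map_some, Option.some_inj] at this
  exact il_ne _ this.symm

/-- free reduction -/
lemma gen_step (L₁ L₂ : List (α × Bool)) (x : α) (b : Bool) (g : ℕ)
    (h : Gen (L₁ ++ (x, b) :: (x, !b) :: L₂) g) : Gen (L₁ ++ L₂) g := by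
  obtain ⟨P, c, hG, hc⟩ := h
  have hne : ∀ i < (L₁ ++ (x, b) :: (x, !b) :: L₂).length, P i ≠ i := fun i hi => hG.ne hi
  have hlen : (L₁ ++ (x, b) :: (x, !b) :: L₂).length = L₁.length + L₂.length + 2 := by
    simp only [List.length_append, List.length_cons]; ring
  have hlen' : (L₁ ++ L₂).length = L₁.length + L₂.length := by simp
  have hlt := hG.lt
  have hinv := hG.inv
  have hlab := hG.lab
  have hcyc := hG.cyc
  have hcol := hG.col
  rw [hlen] at hne hlt hinv hlab hcyc hcol
  have hk : (L₁ ++ (x, b) :: (x, !b) :: L₂)[L₁.length]? = some (x, b) := by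
    rw [List.getElem?_append_right le_rfl]; simp
  have hk1 : (L₁ ++ (x, b) :: (x, !b) :: L₂)[L₁.length + 1]? = some (x, !b) := by
    rw [List.getElem?_append_right (by omega)]; simp
  have hlk : ∀ i, (L₁ ++ L₂)[i]? =
      (L₁ ++ (x, b) :: (x, !b) :: L₂)[if i < L₁.length then i else i + 2]? := by
    intro i
    split_ifs with h1
    · rw [List.getElem?_append_left h1, List.getElem?_append_left h1]
    · rw [List.getElem?_append_right (by omega), List.getElem?_append_right (by omega),
        show i + 2 - L₁.length = (i - L₁.length) + 2 by omega, List.getElem?_cons_succ,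
        List.getElem?_cons_succ]
  generalize (L₁ ++ (x, b) :: (x, !b) :: L₂) = L at *
  set k := L₁.length with hkdef
  set n := L₂.length with hndef
  let io : ℕ → ℕ := fun i => if i < k then i else i + 2
  let dn : ℕ → ℕ := fun j => if j < k then j else j - 2
  let P' : ℕ → ℕ := fun i =>
    if P (io i) = k then dn (P (k + 1)) else if P (io i) = k + 1 then dn (P k)
      else dn (P (io i))
  let mu : ℕ → ℕ := fun v => if v = c (k + 2) then c k else v
  let up : ℕ → ℕ := fun i => if i ≤ k then i else i + 2
  have hio : ∀ i, io i ≠ k ∧ io i ≠ k + 1 := by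
    intro i; simp only [io]; split_ifs <;> omega
  have hiolt : ∀ i, i < k + n → io i < k + n + 2 := by
    intro i hi; simp only [io]; split_ifs <;> omega
  have hdn : ∀ i, dn (io i) = i := by
    intro i; simp only [io, dn]; split_ifs <;> omega
  have hiodn : ∀ j, j ≠ k → j ≠ k + 1 → io (dn j) = j := by
    intro j h1 h2; simp only [io, dn]; split_ifs <;> omega
  have hdnlt : ∀ j, j < k + n + 2 → j ≠ k → j ≠ k + 1 → dn j < k + n := by
    intro j h0 h1 h2; simp only [dn]; split_ifs <;> omega
  have hmu2 : mu (c (k + 2)) = c k := by simp [mu]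
  have hmuk : mu (c k) = c k := by simp only [mu]; split_ifs <;> rfl
  have hA : ∀ i, mu (c (up i)) = mu (c (io i)) := by
    intro i
    simp only [up, io]
    rcases lt_trichotomy i k with h1 | h1 | h1
    · rw [if_pos h1.le, if_pos h1]
    · rw [if_pos h1.le, if_neg (by omega), h1, hmu2, hmuk]
    · rw [if_neg (by omega), if_neg (by omega)]
  have hB : ∀ j, j ≠ k → j ≠ k + 1 → up (dn j + 1) = j + 1 := by
    intro j h1 h2; simp only [up, dn]; split_ifs <;> omega
  -- partners of the two cancelled letters
  have hPk := hlt k (by omega)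
  have hPk1 := hlt (k + 1) (by omega)
  have hPkk := hinv k (by omega)
  have hPk1k := hinv (k + 1) (by omega)
  have hnek := hne k (by omega)
  have hnek1 := hne (k + 1) (by omega)
  have haux1 : ∀ i, i < k + n → P (io i) = k → P k = io i ∧ P (k + 1) ≠ k ∧ P (k + 1) ≠ k + 1 := by
    intro i hi h1
    have h2 := hinv (io i) (hiolt i hi)
    rw [h1] at h2
    refine ⟨h2, ?_, hnek1⟩
    intro h3
    rw [h3] at hPk1k
    rw [hPk1k] at h2
    exact (hio i).2 h2.symm
  have haux2 : ∀ i, i < k + n → P (io i) = k + 1 → P (k + 1) = io i ∧ P k ≠ k ∧ P k ≠ k + 1 := by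
    intro i hi h1
    have h2 := hinv (io i) (hiolt i hi)
    rw [h1] at h2
    refine ⟨h2, hnek, ?_⟩
    intro h3
    rw [h3] at hPkk
    rw [hPkk] at h2
    exact (hio i).1 h2.symm
  have hP' : ∀ i, i < k + n → ∃ j, j < k + n + 2 ∧ j ≠ k ∧ j ≠ k + 1 ∧ P' i = dn j ∧
      mu (c (io i)) = mu (c (j + 1)) ∧ L[j]? = (L[io i]?).map il ∧
      (P j ≠ k → P j ≠ k + 1 → P j = io i) ∧ (P j = k → P (k + 1) = io i) ∧
      (P j = k + 1 → P k = io i) := by
    intro i hi
    have hii := hiolt i hi
    by_cases h1 : P (io i) = k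
    · obtain ⟨h2, h3, h4⟩ := haux1 i hi h1
      refine ⟨P (k + 1), hPk1, h3, h4, ?_, ?_, ?_, ?_, ?_, ?_⟩
      · simp only [P', if_pos h1]
      · rw [hcol _ hii, h1, hcol (k + 1) (by omega)]
      · rw [hlab (k + 1) (by omega), hk1, ← h2, hlab k (by omega), hk]
        simp [il]
      · intro _ h6; exact absurd hPk1k h6
      · intro h5; omega
      · intro _; exact h2
    by_cases h1' : P (io i) = k + 1
    · obtain ⟨h2, h3, h4⟩ := haux2 i hi h1'
      refine ⟨P k, hPk, h3, h4, ?_, ?_, ?_, ?_, ?_, ?_⟩
      · simp only [P', if_neg h1, if_pos h1']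
      · rw [hcol _ hii, h1', ← hcol k (by omega), hmuk, hmu2]
      · rw [hlab k (by omega), hk, ← h2, hlab (k + 1) (by omega), hk1]
        simp [il]
      · intro h5; exact absurd hPkk h5
      · intro _; exact h2
      · intro h5; omega
    · refine ⟨P (io i), hlt _ hii, h1, h1', ?_, ?_, hlab _ hii, ?_, ?_, ?_⟩
      · simp only [P', if_neg h1, if_neg h1']
      · rw [hcol _ hii]
      · intro _ _; exact hinv _ hii
      · intro h5; rw [hinv _ hii] at h5; exact absurd h5 (hio i).1
      · intro h5; rw [hinv _ hii] at h5; exact absurd h5 (hio i).2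
  refine ⟨P', fun i => mu (c (up i)), ⟨?_, ?_, ?_, ?_, ?_⟩, ?_⟩
  · intro i hi
    rw [hlen'] at hi ⊢
    obtain ⟨j, hj, hj1, hj2, e, _⟩ := hP' i hi
    rw [e]
    exact hdnlt j hj hj1 hj2
  · intro i hi
    rw [hlen'] at hi
    obtain ⟨j, hj, hj1, hj2, e, _, _, e1, e2, e3⟩ := hP' i hi
    rw [e]
    simp only [P', hiodn j hj1 hj2]
    split_ifs with h1 h2
    · rw [e2 h1, hdn]
    · rw [e3 h2, hdn]
    · rw [e1 h1 h2, hdn]
  · intro i hi
    rw [hlen'] at hi
    obtain ⟨j, hj, hj1, hj2, e, _, e1, _⟩ := hP' i hi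
    rw [e, hlk, hlk]
    have := hiodn j hj1 hj2
    simp only [io] at this e1
    rw [this, e1]
  · rw [hlen']
    have h0 : up 0 = 0 := by simp [up]
    simp only [h0]
    by_cases hn : n = 0
    · have h1 : up (k + n) = k := by simp only [up]; rw [if_pos (by omega), hn]; rfl
      rw [h1, hmuk, hcyc, hn]
      exact hmu2
    · have h1 : up (k + n) = k + n + 2 := by simp only [up]; rw [if_neg (by omega)]
      rw [h1, hcyc]
  · intro i hi
    rw [hlen'] at hi
    obtain ⟨j, hj, hj1, hj2, e, e1, _⟩ := hP' i hi
    simp only [e, hA, e1, hB j hj1 hj2]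
  · rw [hlen']
    have hsub : ∃ v, cols L c ⊆ insert v (cols (L₁ ++ L₂) (fun i => mu (c (up i)))) := by
      by_cases hI : P k = k + 1
      · have hck : c k = c (k + 2) := by
          have := hcol k (by omega)
          rwa [hI] at this
        have hmuid : ∀ v, mu v = v := by
          intro v; simp only [mu]; split_ifs with h1
          · rw [h1, hck]
          · rfl
        refine ⟨c (k + 1), ?_⟩
        intro v hv
        simp only [cols, Finset.mem_image, Finset.mem_range, Finset.mem_insert, hlen, hlen'] at hv ⊢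
        obtain ⟨j, hj, rfl⟩ := hv
        rcases eq_or_ne j (k + 1) with h1 | h1
        · left; rw [h1]
        right
        rcases eq_or_ne j (k + 2) with h2 | h2
        · refine ⟨k, by omega, ?_⟩
          have : up k = k := by simp [up]
          rw [hmuid, this, h2, hck]
        · refine ⟨if j ≤ k then j else j - 2, by split_ifs <;> omega, ?_⟩
          have : up (if j ≤ k then j else j - 2) = j := by
            simp only [up]; split_ifs <;> omega
          rw [this, hmuid]
      · refine ⟨c (k + 2), ?_⟩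
        intro v hv
        simp only [cols, Finset.mem_image, Finset.mem_range, Finset.mem_insert, hlen, hlen'] at hv ⊢
        obtain ⟨j, hj, rfl⟩ := hv
        by_cases h0 : c j = c (k + 2)
        · left; exact h0
        right
        have hmuj : mu (c j) = c j := by simp only [mu]; rw [if_neg h0]
        rcases eq_or_ne j (k + 1) with h1 | h1
        · have h3 : P (k + 1) ≠ k := by
            intro h3
            rw [h3] at hPk1k
            exact hI hPk1k
          refine ⟨dn (P (k + 1)) + 1, ?_, ?_⟩
          · have := hdnlt _ hPk1 h3 hnek1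
            omega
          · rw [hB _ h3 hnek1, ← hcol (k + 1) (by omega), ← h1, hmuj]
        · have h2 : j ≠ k + 2 := by
            intro h2; rw [h2] at h0; exact h0 rfl
          refine ⟨if j ≤ k then j else j - 2, by split_ifs <;> omega, ?_⟩
          have : up (if j ≤ k then j else j - 2) = j := by
            simp only [up]; split_ifs <;> omega
          rw [this, hmuj]
    obtain ⟨v, hv⟩ := hsub
    have h1 := (Finset.card_le_card hv).trans (Finset.card_insert_le _ _)
    omega

lemma gen_red {L L' : List (α × Bool)} (h : FreeGroup.Red L L') (g : ℕ) (hL : Gen L g) :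
    Gen L' g := by
  induction h with
  | refl => exact hL
  | tail _ hs ih =>
    cases hs with
    | not => exact gen_step _ _ _ _ _ ih

/-- the reduced word of a product of `g` commutators has genus at most `g` -/
theorem gen_of_PC {g : ℕ} {z : FreeGroup α} (h : PC g z) (L : List (α × Bool))
    (hL : FreeGroup.IsReduced L) (hz : FreeGroup.mk L = z) : Gen L g := by
  classical
  obtain ⟨l, hl, hp⟩ := h
  have key : ∀ l : List (FreeGroup α × FreeGroup α),
      ∃ L₀ : List (α × Bool), FreeGroup.mk L₀ =
        (l.map (fun p => p.1 * p.2 * p.1⁻¹ * p.2⁻¹)).prod ∧ Gen L₀ l.length := by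
    intro l
    induction l with
    | nil => exact ⟨[], rfl, gen_nil⟩
    | cons p l ih =>
      obtain ⟨L₀, h1, h2⟩ := ih
      refine ⟨p.1.toWord ++ p.2.toWord ++ FreeGroup.invRev p.1.toWord ++
        FreeGroup.invRev p.2.toWord ++ L₀, ?_, gen_comm _ _ _ _ h2⟩
      rw [List.map_cons, List.prod_cons, ← h1]
      simp only [← FreeGroup.mul_mk, ← FreeGroup.inv_mk, FreeGroup.mk_toWord]
  obtain ⟨L₀, h1, h2⟩ := key l
  rw [hl] at h2
  have h3 : FreeGroup.mk L₀ = FreeGroup.mk L := by rw [h1, hp, hz]
  have h4 := FreeGroup.reduce.sound h3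
  rw [hL.reduce_eq] at h4
  have h5 : FreeGroup.Red L₀ L := by rw [← h4]; exact FreeGroup.reduce.red
  exact gen_red h5 g h2

end H74CL
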