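import Pool.Agent.Helper74.CL.Step

/-!
The decorated words `∏ a^e b a^f b⁻¹` with `f < 0`.
-/

set_option autoImplicit false

namespace H74CL

/-- decorated letters: a letter of an `x`-run (is it the first one of its run, its sign, and the
number of letters after it in the run), `b`, a letter of a `y`-run, `b⁻¹` -/
inductive DL where
  | X (f s : Bool) (k : ℕ) : DL
  | Bp : DL
  | Y : DL
  | Bm : DL
  deriving DecidableEq

namespace DL

/-- the letter -/
def letter : DL → Fin 2 × Bool
  | X _ s _ => (0, s)
  | Bp => (1, true)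
  | Y => (0, false)
  | Bm => (1, false)

/-- what can follow what -/
def R : DL → DL → Prop
  | X _ s (k + 1), v => v = X false s k
  | X _ _ 0, v => v = Bp
  | Bp, v => v = Y
  | Y, v => v = Y ∨ v = Bm
  | Bm, v => ∃ s k, v = X true s k

end DL

open DL

/-- the rest of a run -/
def xrun (s : Bool) : ℕ → List DL
  | 0 => []
  | n + 1 => X false s n :: xrun s n

/-- the decorated word of `a^(± (n + 1)) b a^(-(m + 1)) b⁻¹` -/
def blk (t : ℕ × Bool × ℕ) : List DL :=
  X true t.2.1 t.1 :: (xrun t.2.1 t.1 ++ (Bp :: (List.replicate (t.2.2 + 1) Y ++ [Bm])))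

/-- the decorated word of a list of syllables -/
def dec (S : List (ℕ × Bool × ℕ)) : List DL := S.flatMap blk

lemma isChain_cons' {l : List DL} {u v : DL} (h : R u v) (hl : (v :: l).IsChain R) :
    (u :: v :: l).IsChain R := List.isChain_cons_cons.2 ⟨h, hl⟩

lemma chain_tail (m : ℕ) : (Bp :: (List.replicate (m + 1) Y ++ [Bm])).IsChain R := by
  have h : ∀ m, (List.replicate (m + 1) Y ++ [Bm]).IsChain R := by
    intro m
    induction m with
    | zero => exact isChain_cons' (Or.inr rfl) (List.isChain_singleton _)
    | succ m ih =>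
      rw [List.replicate_succ, List.cons_append]
      rw [List.replicate_succ, List.cons_append] at ih ⊢
      exact isChain_cons' (Or.inl rfl) ih
  have := h m
  rw [List.replicate_succ, List.cons_append] at this ⊢
  exact isChain_cons' rfl this

lemma chain_run (s f : Bool) (n m : ℕ) :
    (X f s n :: (xrun s n ++ (Bp :: (List.replicate (m + 1) Y ++ [Bm])))).IsChain R := by
  induction n generalizing f with
  | zero => exact isChain_cons' rfl (chain_tail m)
  | succ n ih =>
    rw [xrun, List.cons_append]
    exact isChain_cons' rfl (ih false)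

lemma chain_blk (t : ℕ × Bool × ℕ) : (blk t).IsChain R := chain_run _ _ _ _

lemma blk_head (t : ℕ × Bool × ℕ) : (blk t).head? = some (X true t.2.1 t.1) := rfl

lemma blk_last (t : ℕ × Bool × ℕ) : (blk t).getLast? = some Bm := by
  have : blk t = (X true t.2.1 t.1 :: (xrun t.2.1 t.1 ++ (Bp :: (List.replicate (t.2.2 + 1) Y))))
      ++ [Bm] := by
    simp [blk]
  rw [this, List.getLast?_append]
  simp

lemma dec_cons (t : ℕ × Bool × ℕ) (S : List (ℕ × Bool × ℕ)) : dec (t :: S) = blk t ++ dec S := by
  simp [dec]

lemma dec_head (t : ℕ × Bool × ℕ) (S : List (ℕ × Bool × ℕ)) :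
    (dec (t :: S)).head? = some (X true t.2.1 t.1) := rfl

lemma dec_last (S : List (ℕ × Bool × ℕ)) (hS : S ≠ []) : (dec S).getLast? = some Bm := by
  induction S with
  | nil => exact absurd rfl hS
  | cons t S ih =>
    rw [dec_cons, List.getLast?_append]
    by_cases h : S = []
    · subst h
      simp [dec, blk_last]
    · rw [ih h]; rfl

lemma chain_dec (S : List (ℕ × Bool × ℕ)) : (dec S).IsChain R := by
  induction S with
  | nil => exact List.isChain_nil
  | cons t S ih =>
    rw [dec_cons, List.isChain_append]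
    refine ⟨chain_blk t, ih, ?_⟩
    intro x hx y hy
    rw [blk_last] at hx
    simp only [Option.mem_def, Option.some.injEq] at hx
    subst hx
    cases S with
    | nil => simp [dec] at hy
    | cons t' S =>
      rw [dec_head] at hy
      simp only [Option.mem_def, Option.some.injEq] at hy
      subst hy
      exact ⟨_, _, rfl⟩

/-- the word is freely reduced -/
lemma red_dec (S : List (ℕ × Bool × ℕ)) : FreeGroup.IsReduced ((dec S).map letter) := by
  unfold FreeGroup.IsReduced
  rw [List.isChain_map]
  refine (chain_dec S).imp ?_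
  intro u v h
  rcases u with ⟨f, s, _ | k⟩ | _ | _ | _
  · have h : v = Bp := h
    subst h
    intro h; exact absurd h (show ¬ ((0 : Fin 2) = 1) by decide)
  · have h : v = X false s k := h
    subst h
    intro _; rfl
  · have h : v = Y := h
    subst h
    intro h; exact absurd h (by decide)
  · rcases (show v = Y ∨ v = Bm from h) with h | h
    · subst h; intro _; rfl
    · subst h; intro h; exact absurd h (by decide)
  · obtain ⟨s, k, rfl⟩ : ∃ s k, v = X true s k := h
    intro h; exact absurd h (show ¬ ((1 : Fin 2) = 0) by decide)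

/-- the signed integer `± n` -/
def sgn (s : Bool) : ℤ := if s then 1 else -1

lemma mk_replicate {α : Type*} (a : α) (s : Bool) (n : ℕ) :
    FreeGroup.mk (List.replicate n (a, s)) = (FreeGroup.of a) ^ (sgn s * n) := by
  induction n with
  | zero => simp [FreeGroup.one_eq_mk]
  | succ n ih =>
    have h1 : List.replicate (n + 1) (a, s) = [(a, s)] ++ List.replicate n (a, s) := rfl
    have h2 : sgn s * ((n + 1 : ℕ) : ℤ) = sgn s + sgn s * (n : ℤ) := by push_cast; ring
    have h3 : FreeGroup.mk [(a, s)] = FreeGroup.of a ^ sgn s := by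
      cases s
      · simp [sgn, FreeGroup.of, FreeGroup.inv_mk, FreeGroup.invRev]
      · simp [sgn, FreeGroup.of]
    rw [h1, ← FreeGroup.mul_mk, ih, h2, zpow_add, h3]

lemma map_xrun (s : Bool) (n : ℕ) : (xrun s n).map letter = List.replicate n (0, s) := by
  induction n with
  | zero => rfl
  | succ n ih => rw [xrun, List.map_cons, ih, List.replicate_succ]; rfl

/-- the letters `x = a` and `y = b a b⁻¹` -/
def ga : FreeGroup (Fin 2) := FreeGroup.of 0

/-- the letter `b` -/
def gb : FreeGroup (Fin 2) := FreeGroup.of 1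

lemma mk_blk (t : ℕ × Bool × ℕ) : FreeGroup.mk ((blk t).map letter) =
    ga ^ (sgn t.2.1 * ((t.1 + 1 : ℕ) : ℤ)) * (gb * ga * gb⁻¹) ^ (-((t.2.2 + 1 : ℕ) : ℤ)) := by
  obtain ⟨n, s, m⟩ := t
  have h1 : (blk (n, s, m)).map letter = List.replicate (n + 1) (0, s) ++ ([(1, true)] ++
      (List.replicate (m + 1) (0, false) ++ [(1, false)])) := by
    simp only [blk, List.map_cons, List.map_append, map_xrun, List.map_replicate]
    rfl
  rw [h1, ← FreeGroup.mul_mk, ← FreeGroup.mul_mk, ← FreeGroup.mul_mk, mk_replicate, mk_replicate,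
    conj_zpow]
  have h2 : FreeGroup.mk [((1 : Fin 2), true)] = gb := rfl
  have h3 : FreeGroup.mk [((1 : Fin 2), false)] = gb⁻¹ := rfl
  have h4 : FreeGroup.of (0 : Fin 2) = ga := rfl
  rw [h2, h3, h4]
  simp only [sgn]
  simp only [Bool.false_eq_true, if_false, neg_one_mul, mul_assoc]

lemma mk_dec (S : List (ℕ × Bool × ℕ)) : FreeGroup.mk ((dec S).map letter) =
    (S.map (fun t => ga ^ (sgn t.2.1 * ((t.1 + 1 : ℕ) : ℤ)) *
      (gb * ga * gb⁻¹) ^ (-((t.2.2 + 1 : ℕ) : ℤ)))).prod := by
  induction S with
  | nil => rfl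
  | cons t S ih =>
    rw [dec_cons, List.map_append, ← FreeGroup.mul_mk, ih, mk_blk, List.map_cons, List.prod_cons]

/-- weight: letters `b^±1` -/
def wb (u : DL) : ℕ := if (letter u).1 = 1 then 1 else 0

/-- the exponent of a run, at its first letter -/
def wf : DL → Multiset ℤ
  | X true s k => {sgn s * ((k + 1 : ℕ) : ℤ)}
  | _ => 0

lemma sum_xrun {M : Type*} [AddCommMonoid M] (f : DL → M) (s : Bool) (h : ∀ k, f (X false s k) = 0)
    (n : ℕ) : ((xrun s n).map f).sum = 0 := by
  induction n with
  | zero => rfl
  | succ n ih => rw [xrun, List.map_cons, List.sum_cons, ih, h, add_zero]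

lemma sum_wb_blk (t : ℕ × Bool × ℕ) : ((blk t).map wb).sum = 2 := by
  simp only [blk, List.map_cons, List.map_append, List.sum_cons, List.sum_append,
    List.map_replicate, List.sum_replicate, List.map_nil, List.sum_nil]
  rw [sum_xrun wb _ (fun k => rfl)]
  simp [wb, letter]

lemma sum_wb (S : List (ℕ × Bool × ℕ)) : ((dec S).map wb).sum = 2 * S.length := by
  induction S with
  | nil => rfl
  | cons t S ih =>
    rw [dec_cons, List.map_append, List.sum_append, ih, sum_wb_blk, List.length_cons]
    ring

lemma sum_wf_blk (t : ℕ × Bool × ℕ) :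
    ((blk t).map wf).sum = {sgn t.2.1 * ((t.1 + 1 : ℕ) : ℤ)} := by
  simp only [blk, List.map_cons, List.map_append, List.sum_cons, List.sum_append,
    List.map_replicate, List.sum_replicate, List.map_nil, List.sum_nil]
  rw [sum_xrun wf _ (fun k => rfl)]
  simp [wf]

lemma sum_wf (S : List (ℕ × Bool × ℕ)) :
    ((dec S).map wf).sum = ↑(S.map (fun t => sgn t.2.1 * ((t.1 + 1 : ℕ) : ℤ))) := by
  induction S with
  | nil => rfl
  | cons t S ih =>
    rw [dec_cons, List.map_append, List.sum_append, ih, sum_wf_blk, List.map_cons,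
      ← Multiset.cons_coe, Multiset.singleton_add]

/-- the cyclic successor relation -/
lemma cyc_R (S : List (ℕ × Bool × ℕ)) (hS : S ≠ []) (i : ℕ) (hi : i < (dec S).length)
    (j : ℕ) (hj : j < (dec S).length) (hij : j = (i + 1) % (dec S).length) :
    R (dec S)[i] (dec S)[j] := by
  by_cases h : i + 1 < (dec S).length
  · rw [Nat.mod_eq_of_lt h] at hij
    subst hij
    exact List.isChain_iff_getElem.1 (chain_dec S) i h
  · have h1 : i + 1 = (dec S).length := by omega
    rw [h1, Nat.mod_self] at hij
    subst hij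
    cases S with
    | nil => exact absurd rfl hS
    | cons t S =>
      have h2 : (dec (t :: S))[0] = X true t.2.1 t.1 := rfl
      have h3 : (dec (t :: S))[i] = Bm := by
        have := dec_last (t :: S) hS
        rw [List.getLast?_eq_getElem?] at this
        have h4 : (dec (t :: S)).length - 1 = i := by omega
        rw [h4, List.getElem?_eq_getElem hi] at this
        exact Option.some.inj this
      rw [h2, h3]
      exact ⟨_, _, rfl⟩

end H74CL
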